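import Pool.Agent.helper90.LT.AddLU

namespace LT

open LU

universe u

variable {k K : Type u} [Field k] [Field K] [Algebra k K]

/-- enumeration of the nonzero elements of a finite set of Kummer elements -/
theorem enum_kummer {N : ℕ} (F : Fin N → IntermediateField k K) (Z : Finset K)
    (hZ : ∀ x ∈ Z, ∃ (m : ℕ) (h : ∀ i, F i), (m : k) ≠ 0 ∧ x ^ m = ∏ i, (h i : K)) :
    ∃ (L : ℕ) (ζ : Fin L → K) (m : Fin L → ℕ), (∀ l, ζ l ≠ 0) ∧ (∀ l, (m l : k) ≠ 0) ∧
      (∀ l, ∃ h : ∀ i, F i, ζ l ^ m l = ∏ i, (h i : K)) ∧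
      IntermediateField.adjoin k (Set.range ζ) = IntermediateField.adjoin k (Z : Set K) := by
  classical
  let Z' : Finset K := Z.filter (· ≠ 0)
  let e := Z'.equivFin
  have hmem : ∀ l, ((e.symm l : Z') : K) ∈ Z ∧ ((e.symm l : Z') : K) ≠ 0 := fun l =>
    Finset.mem_filter.1 (e.symm l).2
  choose m h hm hh using fun l => hZ _ (hmem l).1
  refine ⟨Z'.card, fun l => (e.symm l : Z'), m, fun l => (hmem l).2, hm, fun l => ⟨h l, hh l⟩, ?_⟩
  apply le_antisymm
  · rw [IntermediateField.adjoin_le_iff]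
    rintro _ ⟨l, rfl⟩
    exact IntermediateField.subset_adjoin _ _ (hmem l).1
  · rw [IntermediateField.adjoin_le_iff]
    intro x hx
    by_cases h0 : x = 0
    · rw [h0]; exact zero_mem _
    · have hx' : x ∈ Z' := Finset.mem_filter.2 ⟨hx, h0⟩
      refine IntermediateField.subset_adjoin _ _ ⟨e ⟨x, hx'⟩, ?_⟩
      simp

variable [IsAlgClosed k] (p : ℕ) [Fact p.Prime] [CharP k p]

theorem add_lu_set {n N : ℕ} (z : Fin n → K) (F : Fin N → IntermediateField k K) (g : ∀ i, F i)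
    (hfg : ∀ i, (F i).FG) (htr : ∀ i, Algebra.trdeg k (F i) = 1)
    (htame : ∀ i, Tame k p (g i))
    (hadd : ∀ i, (g i : K) ∈ Submodule.span k (insert 1 {y | ∃ j, ∃ s : ℕ, y = z j ^ p ^ s}))
    (Z : Finset K)
    (hZ : ∀ x ∈ Z, ∃ (m : ℕ) (h : ∀ i, F i), (m : k) ≠ 0 ∧ x ^ m = ∏ i, (h i : K))
    (hgen : IntermediateField.adjoin k (Set.range z) ⊔ (⨆ i, F i) ⊔
      IntermediateField.adjoin k (Z : Set K) = ⊤)
    (hn : Algebra.trdeg k K = n) (V : ValuationSubring K)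
    (hV : ∀ c : k, algebraMap k K c ∈ V) : Uniformizable k V := by
  obtain ⟨L, ζ, m, h1, h2, h3, h4⟩ := enum_kummer F Z hZ
  exact add_lu p z F g (fun i => IntermediateField.essFiniteType_iff.2 (hfg i)) htr htame hadd ζ m
    h1 h2 h3 (by rw [h4]; exact hgen) hn V hV

end LT
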