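import Mathlib

namespace LT

open Matrix

section

variable {k : Type*} [Field k] {R C : Type*} [Fintype R] [DecidableEq R] [DecidableEq C]
  [Fintype C]

/-- State of the elimination. -/
structure EchState (A : Matrix R C k) (le : C → C → Prop) (S : Finset C)
    (P Q : Matrix R R k) (W : Finset R) (π : R → C) : Prop where
  inv : Q * P = 1
  piv : ∀ j ∈ W, π j ∈ S ∧ (P * A) j (π j) ≠ 0 ∧ (∀ l, l ≠ j → (P * A) l (π j) = 0) ∧
    ∀ i, (P * A) j i ≠ 0 → le i (π j)
  zer : ∀ j ∉ W, ∀ i ∈ S, (P * A) j i = 0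
  up : ∀ i ∈ S, ∀ i', i' ∉ S → le i' i

omit [DecidableEq C] in
lemma step_apply (A : Matrix R C k) (P : Matrix R R k) (c : R → k) (j0 : R) (l : R) (i : C) :
    (((1 + vecMulVec c (Pi.single j0 1) : Matrix R R k) * P) * A : Matrix R C k) l i =
      (P * A) l i + c l * (P * A) j0 i := by
  rw [Matrix.mul_assoc, Matrix.add_mul, Matrix.one_mul, Matrix.add_apply]
  congr 1
  rw [Matrix.mul_apply]
  simp only [vecMulVec_apply, Pi.single_apply]
  rw [Finset.sum_eq_single j0]
  · simp
  · intro b _ hb
    simp [hb]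
  · simp

omit [DecidableEq C] [Fintype C] in
lemma step_inv (P Q : Matrix R R k) (h : Q * P = 1) (c : R → k) (j0 : R) (hc : c j0 = 0) :
    (Q * (1 - vecMulVec c (Pi.single j0 1))) * ((1 + vecMulVec c (Pi.single j0 1)) * P) = 1 := by
  have hN : vecMulVec c (Pi.single j0 1) * vecMulVec c (Pi.single j0 1) =
      (0 : Matrix R R k) := by
    ext a b
    rw [Matrix.mul_apply]
    simp only [vecMulVec_apply, Pi.single_apply]
    rw [Finset.sum_eq_zero]
    · rfl
    · intro x _
      by_cases hx : x = j0
      · subst hx; simp [hc]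
      · simp [hx]
  have h1 : (1 - vecMulVec c (Pi.single j0 1)) * (1 + vecMulVec c (Pi.single j0 1)) =
      (1 : Matrix R R k) := by
    rw [Matrix.sub_mul, Matrix.mul_add, Matrix.mul_add, hN]
    simp
  rw [Matrix.mul_assoc, ← Matrix.mul_assoc (1 - _), h1, Matrix.one_mul, h]

theorem ech_aux (A : Matrix R C k) (le : C → C → Prop)
    (hmax : ∀ T : Finset C, T.Nonempty → ∃ i ∈ T, ∀ i' ∈ T, le i' i)
    (m : ℕ) : ∀ (S : Finset C) (P Q : Matrix R R k) (W : Finset R) (π : R → C),
      Sᶜ.card = m → EchState A le S P Q W π →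
      ∃ (P' Q' : Matrix R R k) (W' : Finset R) (π' : R → C),
        EchState A le Finset.univ P' Q' W' π' := by
  induction m with
  | zero =>
    intro S P Q W π hm h
    rw [Finset.card_eq_zero, Finset.compl_eq_empty_iff] at hm
    subst hm
    exact ⟨P, Q, W, π, h⟩
  | succ m ih =>
    intro S P Q W π hm h
    have hne : Sᶜ.Nonempty := by
      rw [← Finset.card_pos]; omega
    obtain ⟨i, hi, himax⟩ := hmax Sᶜ hne
    rw [Finset.mem_compl] at hi
    have hcard : (insert i S)ᶜ.card = m := by
      rw [Finset.compl_insert, Finset.card_erase_of_mem (Finset.mem_compl.2 hi)]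
      omega
    have hup : ∀ i1 ∈ insert i S, ∀ i', i' ∉ insert i S → le i' i1 := by
      intro i1 hi1 i' hni
      rw [Finset.mem_insert, not_or] at hni
      rcases Finset.mem_insert.1 hi1 with rfl | hi1
      · exact himax i' (Finset.mem_compl.2 hni.2)
      · exact h.up i1 hi1 i' hni.2
    by_cases hrow : ∃ j0, j0 ∉ W ∧ (P * A) j0 i ≠ 0
    · obtain ⟨j0, hj0, hA0⟩ := hrow
      let c : R → k := fun l => if l = j0 then 0 else -((P * A) l i * ((P * A) j0 i)⁻¹)
      have hc0 : c j0 = 0 := by simp [c]
      set P' : Matrix R R k := (1 + vecMulVec c (Pi.single j0 1)) * P with hP'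
      set Q' : Matrix R R k := Q * (1 - vecMulVec c (Pi.single j0 1)) with hQ'
      have hPA : ∀ l i1, (P' * A) l i1 = (P * A) l i1 + c l * (P * A) j0 i1 := fun l i1 =>
        step_apply A P c j0 l i1
      have hj0row : ∀ i1, (P' * A) j0 i1 = (P * A) j0 i1 := by
        intro i1
        rw [hPA, hc0, zero_mul, add_zero]
      have hcol : ∀ l, l ≠ j0 → (P' * A) l i = 0 := by
        intro l hl
        rw [hPA]
        simp only [c, if_neg hl]
        field_simp
        ring
      have hsame : ∀ l i1, (P * A) j0 i1 = 0 → (P' * A) l i1 = (P * A) l i1 := by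
        intro l i1 h1
        rw [hPA, h1, mul_zero, add_zero]
      refine ih (insert i S) P' Q' (insert j0 W) (fun j => if j = j0 then i else π j) hcard
        ⟨step_inv P Q h.inv c j0 hc0, ?_, ?_, hup⟩
      · intro j hj
        have hA0S : ∀ i1 ∈ S, (P * A) j0 i1 = 0 := h.zer j0 hj0
        by_cases hjj : j = j0
        · subst hjj
          rw [if_pos rfl, hj0row]
          refine ⟨Finset.mem_insert_self _ _, hA0, hcol, ?_⟩
          intro i1 hne1
          rw [hj0row] at hne1
          by_cases hi1S : i1 ∈ S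
          · exact absurd (hA0S i1 hi1S) hne1
          · exact himax i1 (Finset.mem_compl.2 hi1S)
        · have hjW : j ∈ W := (Finset.mem_insert.1 hj).resolve_left hjj
          obtain ⟨q1, q2, q3, q4⟩ := h.piv j hjW
          rw [if_neg hjj]
          have h0 := hA0S _ q1
          refine ⟨Finset.mem_insert_of_mem q1, ?_, ?_, ?_⟩
          · rw [hsame j _ h0]; exact q2
          · intro l hl
            rw [hsame l _ h0]; exact q3 l hl
          · intro i1 hne1
            by_cases hz : (P * A) j0 i1 = 0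
            · rw [hsame j _ hz] at hne1
              exact q4 i1 hne1
            · have hi1S : i1 ∉ S := fun hs => hz (hA0S i1 hs)
              exact h.up _ q1 i1 hi1S
      · intro j hj i1 hi1
        rw [Finset.mem_insert, not_or] at hj
        rcases Finset.mem_insert.1 hi1 with rfl | hi1
        · exact hcol j hj.1
        · rw [hsame j i1 (h.zer j0 hj0 i1 hi1)]
          exact h.zer j hj.2 i1 hi1
    · push Not at hrow
      refine ih (insert i S) P Q W π hcard ⟨h.inv, ?_, ?_, hup⟩
      · intro j hj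
        obtain ⟨q1, q2, q3, q4⟩ := h.piv j hj
        exact ⟨Finset.mem_insert_of_mem q1, q2, q3, q4⟩
      · intro j hj i1 hi1
        rcases Finset.mem_insert.1 hi1 with rfl | hi1
        · exact hrow j hj
        · exact h.zer j hj i1 hi1

/-- Reduced echelon form adapted to a total preorder on the columns, for a matrix with linearly
independent rows. -/
theorem ech_lin [Nonempty C] (A : Matrix R C k) (le : C → C → Prop)
    (hmax : ∀ T : Finset C, T.Nonempty → ∃ i ∈ T, ∀ i' ∈ T, le i' i)
    (hA : ∀ v : R → k, Matrix.vecMul v A = 0 → v = 0) :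
    ∃ (P Q : Matrix R R k) (π : R → C), Q * P = 1 ∧ ∀ j, (P * A) j (π j) ≠ 0 ∧
      (∀ l, l ≠ j → (P * A) l (π j) = 0) ∧ ∀ i, (P * A) j i ≠ 0 → le i (π j) := by
  obtain ⟨P, Q, W, π, h⟩ := ech_aux A le hmax (∅ : Finset C)ᶜ.card ∅ 1 1 ∅
    (fun _ => Classical.arbitrary C) rfl ⟨by simp, by simp, by simp, by simp⟩
  have hW : ∀ j, j ∈ W := by
    intro j
    by_contra hj
    have h1 : Matrix.vecMul (P j) A = 0 := by
      funext i
      exact h.zer j hj i (Finset.mem_univ _)
    have h2 := hA _ h1
    have h3 : (P * Q) j j = 1 := by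
      rw [mul_eq_one_comm.1 h.inv, Matrix.one_apply_eq]
    rw [Matrix.mul_apply] at h3
    simp [h2] at h3
  exact ⟨P, Q, π, h.inv, fun j => (h.piv j (hW j)).2⟩

end

end LT
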