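import Pool.Agent.helper90.LU.Asm

namespace LT

open LU Polynomial
open scoped Polynomial.Bivariate

universe u

/-- Exchange and transitivity for algebraicity. -/
theorem alg_exchange {k : Type*} [Field k] {σ E : Type*} [Field E]
    (θ : MvPolynomial σ k →+* E) {a b : E}
    (htr : ∀ q : Polynomial k, q ≠ 0 → Polynomial.eval₂ (θ.comp MvPolynomial.C) a q ≠ 0)
    (ha : AlgOver θ a)
    (hab : AlgOver (MvPolynomial.eval₂Hom (θ.comp MvPolynomial.C) (fun _ : Fin 1 => b)) a) :
    AlgOver θ b := by
  set κ : k →+* E := θ.comp MvPolynomial.C with hκ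
  let _ : Algebra k E := κ.toAlgebra
  have hκa : algebraMap k E = κ := rfl
  let _ : Algebra (MvPolynomial σ k) E := θ.toAlgebra
  change IsAlgebraic (MvPolynomial σ k) b
  change IsAlgebraic (MvPolynomial σ k) a at ha
  obtain ⟨Q, hQ0, hQ⟩ : ∃ Q : Polynomial (MvPolynomial (Fin 1) k), Q ≠ 0 ∧
      Polynomial.eval₂ (MvPolynomial.eval₂Hom κ (fun _ : Fin 1 => b)) a Q = 0 := hab
  have key : ∀ (x y : E) (q : k[X][Y]), aevalAeval x y q =
      Polynomial.eval₂ ((aeval x : k[X] →ₐ[k] E) : k[X] →+* E) y q := by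
    intro x y q
    induction q using Polynomial.induction_on' with
    | add p q hp hq => rw [map_add, hp, hq, eval₂_add]
    | monomial n f =>
      rw [← C_mul_X_pow_eq_monomial, map_mul, map_pow, aevalAeval_C, aevalAeval_Y, eval₂_mul,
        eval₂_C, eval₂_X_pow]
      rfl
  let e := MvPolynomial.uniqueAlgEquiv k (Fin 1)
  let Q' : k[X][Y] := Q.map (e : MvPolynomial (Fin 1) k →+* k[X])
  have hQ'0 : Q' ≠ 0 := (Polynomial.map_ne_zero_iff e.injective).2 hQ0
  have hQ' : aevalAeval b a Q' = 0 := by
    rw [key, Polynomial.eval₂_map, ← hQ]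
    congr 1
    apply MvPolynomial.ringHom_ext
    · intro c
      have : e (MvPolynomial.C c) = C c := e.commutes c
      change aeval b (e (MvPolynomial.C c)) = _
      rw [this, aeval_C, hκa]
      simp
    · intro i
      have : e (MvPolynomial.X i) = X := by
        simp [e]
      change aeval b (e (MvPolynomial.X i)) = _
      rw [this, aeval_X]
      simp
  let Q2 : k[X][Y] := Bivariate.swap (R := k) Q'
  have hQ20 : Q2 ≠ 0 := by
    intro h
    apply hQ'0
    have := congrArg (Bivariate.swap (R := k)) h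
    rwa [map_zero, Bivariate.swap_swap_apply] at this
  have hQ2 : aevalAeval a b Q2 = 0 := by
    rw [Bivariate.aevalAeval_swap, hQ']
  -- coefficients in the algebraic closure
  let A := Subalgebra.algebraicClosure (MvPolynomial σ k) E
  have haA : a ∈ A := ha
  have hkA : ∀ c : k, κ c ∈ A := fun c => isAlgebraic_algebraMap (MvPolynomial.C c)
  let κA : k →+* A := κ.codRestrict A.toSubring hkA
  let f : k[X] →+* A := Polynomial.eval₂RingHom κA ⟨a, haA⟩
  have hf : ∀ q : k[X], ((f q : A) : E) = Polynomial.eval₂ κ a q := by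
    intro q
    change A.toSubring.subtype (Polynomial.eval₂ κA ⟨a, haA⟩ q) = _
    rw [Polynomial.hom_eval₂]
    rfl
  have hfinj : Function.Injective f := by
    rw [injective_iff_map_eq_zero]
    intro q hq
    by_contra hq0
    apply htr q hq0
    rw [← hf, hq]
    rfl
  have hb : IsAlgebraic A b := by
    refine ⟨Q2.map f, (Polynomial.map_ne_zero_iff hfinj).2 hQ20, ?_⟩
    rw [Polynomial.aeval_def, Polynomial.eval₂_map, ← hQ2, key]
    congr 1
    apply RingHom.ext
    intro q
    exact hf q
  exact IsAlgebraic.restrictScalars (MvPolynomial σ k) hb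

/-- Transitivity over a transcendental element. -/
theorem alg_trans {k : Type*} [Field k] {σ E : Type*} [Field E]
    (θ : MvPolynomial σ k →+* E) {b c : E}
    (htr : ∀ q : Polynomial k, q ≠ 0 → Polynomial.eval₂ (θ.comp MvPolynomial.C) b q ≠ 0)
    (hb : AlgOver θ b)
    (hbc : AlgOver (MvPolynomial.eval₂Hom (θ.comp MvPolynomial.C) (fun _ : Fin 1 => b)) c) :
    AlgOver θ c := by
  set κ : k →+* E := θ.comp MvPolynomial.C with hκ
  let _ : Algebra (MvPolynomial σ k) E := θ.toAlgebra
  change IsAlgebraic (MvPolynomial σ k) c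
  change IsAlgebraic (MvPolynomial σ k) b at hb
  obtain ⟨Q, hQ0, hQ⟩ : ∃ Q : Polynomial (MvPolynomial (Fin 1) k), Q ≠ 0 ∧
      Polynomial.eval₂ (MvPolynomial.eval₂Hom κ (fun _ : Fin 1 => b)) c Q = 0 := hbc
  let e := MvPolynomial.uniqueAlgEquiv k (Fin 1)
  let A := Subalgebra.algebraicClosure (MvPolynomial σ k) E
  have hbA : b ∈ A := hb
  have hkA : ∀ c : k, κ c ∈ A := fun c => isAlgebraic_algebraMap (MvPolynomial.C c)
  let κA : k →+* A := κ.codRestrict A.toSubring hkA
  let f : k[X] →+* A := Polynomial.eval₂RingHom κA ⟨b, hbA⟩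
  have hf : ∀ q : k[X], ((f q : A) : E) = Polynomial.eval₂ κ b q := by
    intro q
    change A.toSubring.subtype (Polynomial.eval₂ κA ⟨b, hbA⟩ q) = _
    rw [Polynomial.hom_eval₂]
    rfl
  have hfinj : Function.Injective f := by
    rw [injective_iff_map_eq_zero]
    intro q hq
    by_contra hq0
    apply htr q hq0
    rw [← hf, hq]
    rfl
  let g : MvPolynomial (Fin 1) k →+* A := f.comp (e : MvPolynomial (Fin 1) k →+* k[X])
  have hg : Function.Injective g := hfinj.comp e.injective
  have hc : IsAlgebraic A c := by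
    refine ⟨Q.map g, (Polynomial.map_ne_zero_iff hg).2 hQ0, ?_⟩
    rw [Polynomial.aeval_def, Polynomial.eval₂_map, ← hQ]
    congr 1
    apply MvPolynomial.ringHom_ext
    · intro c
      have h1 : e (MvPolynomial.C c) = C c := e.commutes c
      change ((f (e (MvPolynomial.C c)) : A) : E) = _
      rw [hf, h1]
      simp
    · intro i
      have h1 : e (MvPolynomial.X i) = X := by
        simp [e]
      change ((f (e (MvPolynomial.X i)) : A) : E) = _
      rw [hf, h1]
      simp
  exact IsAlgebraic.restrictScalars (MvPolynomial σ k) hc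

end LT
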