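import Pool.Agent.helper90.LU.CurveP
import Pool.Agent.helper90.LU.Asm

/-!
Germs of curves at the center of a valuation ring, adapted to a tamely ramified function.
-/

open Polynomial
open scoped IntermediateField
open scoped IntermediateField.algebraAdjoinAdjoin

namespace LU.Curve

universe u

theorem germ_top_of {k F : Type u} [Field k] [Field F] [Algebra k F]
    [Algebra.EssFiniteType k F] (htr : Algebra.trdeg k F = 1) (v : F) (hv : Transcendental k v)
    (hsep : Algebra.IsSeparable k⟮v⟯ F) :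
    ∃ (w : F) (Φ : MvPolynomial (Fin 2) k), IsGerm (⊤ : ValuationSubring F) v w Φ := by
  classical
  set O : ValuationSubring F := ⊤ with hOt
  have hmem : ∀ g : F, g ∈ O := fun g => ValuationSubring.mem_top g
  let iF : k[X] →ₐ[k] F := aeval v
  let _ : Algebra k[X] F := iF.toRingHom.toAlgebra
  have halg : ∀ p : k[X], algebraMap k[X] F p = aeval v p := fun p => rfl
  have : IsScalarTower k k[X] F := IsScalarTower.of_algebraMap_eq fun r => by
    rw [halg]; simp
  let iO : k[X] →+* O := (algebraMap k[X] F).codRestrict O.toSubring fun p => hmem _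
  let _ : Algebra k[X] O := iO.toAlgebra
  have : IsScalarTower k[X] O F := IsScalarTower.of_algebraMap_eq fun r => rfl
  have hX : algebraMap k[X] F X = v := by rw [halg, aeval_X]
  -- a finitely generated subalgebra
  obtain ⟨s, hs⟩ := IntermediateField.fg_top k F
  let B : Subalgebra k F := Algebra.adjoin k (insert v s : Finset F)
  have hvB : v ∈ B := Algebra.subset_adjoin (by simp)
  let B' : Subalgebra k[X] F :=
    { B with
      algebraMap_mem' := fun p => by
        have h1 : Algebra.adjoin k {v} ≤ B := Algebra.adjoin_le (Set.singleton_subset_iff.2 hvB)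
        exact h1 (by rw [Algebra.adjoin_singleton_eq_range_aeval]; exact ⟨p, rfl⟩) }
  have hft : Algebra.FiniteType k[X] B' := by
    have h1 : Algebra.FiniteType k B := (Subalgebra.fg_iff_finiteType _).1 (Subalgebra.fg_adjoin_finset _)
    have h2 : Algebra.FiniteType k B' := h1
    exact Algebra.FiniteType.of_restrictScalars_finiteType k k[X] B'
  have hloc : ∀ g ∈ O, ∃ a ∈ B', ∃ s ∈ B', s ≠ 0 ∧ s⁻¹ ∈ O ∧ g = a / s := by
    intro g _
    have h1 : g ∈ IntermediateField.adjoin k (insert v s : Finset F) := by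
      have h2 : IntermediateField.adjoin k (s : Set F) ≤ IntermediateField.adjoin k (insert v s : Finset F) :=
        IntermediateField.adjoin.mono _ _ _ (by simp)
      exact h2 (by rw [hs]; trivial)
    obtain ⟨a, ha, b, hb, hab⟩ := IntermediateField.mem_adjoin_iff_div.1 h1
    by_cases hb0 : b = 0
    · refine ⟨0, B'.zero_mem, 1, B'.one_mem, one_ne_zero, hmem _, ?_⟩
      rw [hab, hb0, div_zero, zero_div]
    · exact ⟨a, ha, b, hb, hb0, hmem _, hab⟩
  have hur : Algebra.FormallyUnramified k[X] O := by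
    let e := Polynomial.algEquivOfTranscendental k v hv
    let _ : Algebra k[X] (Algebra.adjoin k {v}) := e.toRingEquiv.toRingHom.toAlgebra
    let _ : Algebra k[X] k⟮v⟯ :=
      ((algebraMap (Algebra.adjoin k {v}) k⟮v⟯).comp e.toRingEquiv.toRingHom).toAlgebra
    have t1 : IsScalarTower k[X] (Algebra.adjoin k {v}) k⟮v⟯ := IsScalarTower.of_algebraMap_eq fun r => rfl
    have t2 : IsScalarTower k[X] k⟮v⟯ F := IsScalarTower.of_algebraMap_eq fun r => by
      show aeval v r = ((e r : Algebra.adjoin k {v}) : F)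
      simp [e]
    have u1 : Algebra.FormallyUnramified k[X] (Algebra.adjoin k {v}) :=
      Algebra.FormallyUnramified.of_surjective (Algebra.ofId k[X] (Algebra.adjoin k {v})) e.surjective
    have u2 : Algebra.FormallyUnramified (Algebra.adjoin k {v}) k⟮v⟯ :=
      Algebra.FormallyUnramified.of_isLocalization (nonZeroDivisors (Algebra.adjoin k {v}))
    have u3 : Algebra.FormallyUnramified k[X] k⟮v⟯ := Algebra.FormallyUnramified.comp _ (Algebra.adjoin k {v}) _
    have u4 : Algebra.FormallyUnramified k⟮v⟯ F := Algebra.FormallyUnramified.of_isSeparable _ _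
    have u5 : Algebra.FormallyUnramified k[X] F := Algebra.FormallyUnramified.comp _ k⟮v⟯ _
    exact Algebra.FormallyUnramified.of_equiv (AlgEquiv.ofBijective (IsScalarTower.toAlgHom k[X] O F)
      ⟨Subtype.val_injective, fun g => ⟨⟨g, hmem g⟩, rfl⟩⟩).symm
  obtain ⟨w, Φ, hwO, h1, h2, h3, h4⟩ := germ_core (k := k) O B' (fun b hb => hmem b)
    hloc (fun _ => hur)
  rw [hX] at h1 h2 h3 h4
  exact ⟨w, Φ, finish htr O v w Φ (hmem _) hwO hv h1 h2 h3 h4 (fun h => absurd hOt h)
    (fun h => absurd hOt h) (fun h => absurd hOt h)⟩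

end LU.Curve

namespace LT

open LU

universe u

open scoped IntermediateField

/-- `g : C → ℙ¹` is a tamely ramified separable map: `F` is separable over `k(g)` and, for
every valuation ring `O` of `F/k` and every constant `c`, the value of `g - c` is divisible by `p` only
if it is zero. -/
structure Tame (k : Type u) {F : Type u} [Field k] [Field F] [Algebra k F] (p : ℕ) (g : F) :
    Prop where
  sep : Algebra.IsSeparable (IntermediateField.adjoin k {g}) F
  ram : ∀ O : ValuationSubring F, (∀ c : k, algebraMap k F c ∈ O) → ∀ (c : k) (h : F),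
    O.valuation (g - algebraMap k F c) = O.valuation h ^ p →
      O.valuation (g - algebraMap k F c) = 1

/-- The germ of a tame function at the center of `O`. -/
structure TGerm {k F : Type u} [Field k] [Field F] [Algebra k F] (O : ValuationSubring F)
    (g u w : F) (Φ N D : MvPolynomial (Fin 2) k) (m : ℤ) (c : k) : Prop where
  hu0 : u ≠ 0
  huO : u ∈ O
  hwO : w ∈ O
  hΦ : MvPolynomial.aeval ![u, w] Φ = 0
  hΦ0 : MvPolynomial.aeval ![u, w] (MvPolynomial.pderiv 1 Φ) ≠ 0
  hΦO : (MvPolynomial.aeval ![u, w] (MvPolynomial.pderiv 1 Φ))⁻¹ ∈ O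
  tr : Transcendental k u
  gen : IntermediateField.adjoin k {u, w} = ⊤
  hN0 : MvPolynomial.aeval ![u, w] N ≠ 0
  hNO : (MvPolynomial.aeval ![u, w] N)⁻¹ ∈ O
  hD0 : MvPolynomial.aeval ![u, w] D ≠ 0
  hDO : (MvPolynomial.aeval ![u, w] D)⁻¹ ∈ O
  fac : g - algebraMap k F c = u ^ m * (MvPolynomial.aeval ![u, w] N /
    MvPolynomial.aeval ![u, w] D)
  hm : (m : k) ≠ 0
  dir : u⁻¹ ∉ O ∨ (N = 1 ∧ D = 1)
  ger : IsGerm O u w Φ

section

variable {k F : Type u} [Field k] [Field F] [Algebra k F] {O : ValuationSubring F}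

/-- every function is a power of the parameter times a quotient of polynomials which are units -/
lemma facs {u w : F} {Φ : MvPolynomial (Fin 2) k} (hG : IsGerm O u w Φ) (g : F) (hg : g ≠ 0) :
    ∃ (m : ℤ) (N D : MvPolynomial (Fin 2) k),
    MvPolynomial.aeval ![u, w] N ≠ 0 ∧ (MvPolynomial.aeval ![u, w] N)⁻¹ ∈ O ∧
    MvPolynomial.aeval ![u, w] D ≠ 0 ∧ (MvPolynomial.aeval ![u, w] D)⁻¹ ∈ O ∧
    g = u ^ m * (MvPolynomial.aeval ![u, w] N / MvPolynomial.aeval ![u, w] D) := by
  by_cases hne : O = ⊤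
  · subst hne
    have h1 : g ∈ IntermediateField.adjoin k (Set.range ![u, w]) := by
      have : Set.range ![u, w] = {u, w} := by simp [Matrix.range_cons, Set.pair_comm]
      rw [this, hG.gen]
      trivial
    obtain ⟨N, D, h⟩ := (IntermediateField.mem_adjoin_range_iff k _ g).1 h1
    have hN : MvPolynomial.aeval ![u, w] N ≠ 0 := by
      intro h0
      rw [h0, zero_div] at h
      exact hg h
    have hD : MvPolynomial.aeval ![u, w] D ≠ 0 := by
      intro h0
      rw [h0, div_zero] at h
      exact hg h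
    exact ⟨0, N, D, hN, ValuationSubring.mem_top _, hD, ValuationSubring.mem_top _, by
      rw [zpow_zero, one_mul]; exact h⟩
  · exact hG.fac hne g hg

lemma exists_residue [IsAlgClosed k] {g : F}
    (h : ∃ f : k[X], f ≠ 0 ∧ (aeval g f = 0 ∨ (aeval g f)⁻¹ ∉ O))
    (hO : ∀ c : k, algebraMap k F c ∈ O) :
    ∃ c : k, g - algebraMap k F c = 0 ∨ (g - algebraMap k F c)⁻¹ ∉ O := by
  obtain ⟨f, hf0, hf⟩ := h
  by_contra hcon
  push Not at hcon
  have hs := IsAlgClosed.splits f
  have e1 : aeval g f = algebraMap k F f.leadingCoeff *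
      (f.roots.map fun c => g - algebraMap k F c).prod := by
    conv_lhs => rw [hs.eq_prod_roots]
    rw [map_mul, aeval_C, map_multiset_prod, Multiset.map_map]
    congr 2
    apply Multiset.map_congr rfl
    intro c _
    simp
  have hprod : ∀ s : Multiset k, (s.map fun c => g - algebraMap k F c).prod ≠ 0 ∧
      ((s.map fun c => g - algebraMap k F c).prod)⁻¹ ∈ O := by
    intro s
    induction s using Multiset.induction_on with
    | empty => simp [one_mem]
    | cons c s ih =>
      rw [Multiset.map_cons, Multiset.prod_cons]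
      refine ⟨mul_ne_zero (hcon c).1 ih.1, ?_⟩
      rw [mul_inv]
      exact mul_mem (hcon c).2 ih.2
  have hl : algebraMap k F f.leadingCoeff ≠ 0 := by simpa using hf0
  have h2 := hprod f.roots
  rcases hf with hf | hf
  · rw [e1] at hf
    exact mul_ne_zero hl h2.1 hf
  · apply hf
    rw [e1, mul_inv, ← map_inv₀]
    exact mul_mem (hO _) h2.2

theorem exists_tgerm [IsAlgClosed k] (p : ℕ) [Fact p.Prime] [CharP k p]
    (hfg : Algebra.EssFiniteType k F) (htr : Algebra.trdeg k F = 1)
    (hO : ∀ c : k, algebraMap k F c ∈ O) (g : F) (hg : Tame k p g) :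
    ∃ (u w : F) (Φ N D : MvPolynomial (Fin 2) k) (m : ℤ) (c : k),
      TGerm O g u w Φ N D m c := by
  have hp := (Fact.out : p.Prime)
  have hval : ∀ {x : F}, x ≠ 0 → x ∈ O → x⁻¹ ∈ O → O.valuation x = 1 := by
    intro x hx h1 h2
    have hx' : O.valuation x ≠ 0 := by simpa using hx
    apply le_antisymm ((O.valuation_le_one_iff _).2 h1)
    have h3 := (O.valuation_le_one_iff _).2 h2
    rw [map_inv₀] at h3
    exact (inv_le_one₀ (zero_lt_iff.2 hx')).1 h3
  have hgc : ∀ c : k, g - algebraMap k F c ≠ 0 := by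
    intro c h0
    have := hg.ram O hO c 0 (by rw [h0, map_zero, zero_pow hp.ne_zero])
    rw [h0, map_zero] at this
    exact zero_ne_one this
  by_cases hne : O = ⊤
  · have htrans : Transcendental k g := by
      intro halg
      obtain ⟨f, hf0, hf⟩ := halg
      obtain ⟨c, hc⟩ := exists_residue (O := ⊤) (g := g) ⟨f, hf0, Or.inl hf⟩
        (fun c => ValuationSubring.mem_top _)
      rcases hc with hc | hc
      · exact hgc c hc
      · exact hc (ValuationSubring.mem_top _)
    subst hne
    obtain ⟨w, Φ, hG⟩ := Curve.germ_top_of htr g htrans hg.sep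
    refine ⟨g, w, Φ, 1, 1, 1, 0, ⟨hG.hu0, hG.huO, hG.hwO, hG.hΦ, hG.hΦ0, hG.hΦO, hG.tr, hG.gen,
      by simp, by simp, by simp, by simp, by simp, by simp, Or.inr ⟨rfl, rfl⟩, hG⟩⟩
  · obtain ⟨u, w, Φ, hG⟩ := exists_germ htr O hO
    obtain ⟨c, hc⟩ : ∃ c : k, g - algebraMap k F c ∉ O ∨ (g - algebraMap k F c)⁻¹ ∉ O := by
      by_cases hgO : g ∈ O
      · obtain ⟨c, hc⟩ := exists_residue (hG.res hne g hgO) hO
        exact ⟨c, Or.inr (hc.resolve_left (hgc c))⟩
      · exact ⟨0, Or.inl (by simpa using hgO)⟩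
    obtain ⟨m, N, D, hN0, hNO, hD0, hDO, hfac⟩ := hG.fac hne _ (hgc c)
    have hmem : ∀ q : MvPolynomial (Fin 2) k, MvPolynomial.aeval ![u, w] q ∈ O := by
      intro q
      apply aeval_mem hO
      intro i
      fin_cases i
      · exact hG.huO
      · exact hG.hwO
    have hvN : O.valuation (MvPolynomial.aeval ![u, w] N / MvPolynomial.aeval ![u, w] D) = 1 := by
      rw [map_div₀, hval hN0 (hmem _) hNO, hval hD0 (hmem _) hDO, div_one]
    refine ⟨u, w, Φ, N, D, m, c, ⟨hG.hu0, hG.huO, hG.hwO, hG.hΦ, hG.hΦ0, hG.hΦO, hG.tr, hG.gen,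
      hN0, hNO, hD0, hDO, hfac, ?_, Or.inl (hG.nontriv hne), hG⟩⟩
    intro hm0
    rw [CharP.intCast_eq_zero_iff k p] at hm0
    obtain ⟨m', rfl⟩ := hm0
    have h1 : O.valuation (g - algebraMap k F c) = O.valuation (u ^ m') ^ p := by
      rw [hfac, map_mul, hvN, mul_one, mul_comm, zpow_mul, zpow_natCast, map_pow]
    have h2 := hg.ram O hO c _ h1
    have h3 : g - algebraMap k F c ∈ O := (O.valuation_le_one_iff _).1 h2.le
    have h4 : (g - algebraMap k F c)⁻¹ ∈ O := by
      rw [← O.valuation_le_one_iff, map_inv₀, h2, inv_one]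
    rcases hc with hc | hc
    · exact hc h3
    · exact hc h4

end

end LT
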