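import Pool.Agent.helper90.LT.ToL
import Pool.Agent.helper90.LT.EchK
import Pool.Agent.helper90.LT.TGerm
import Pool.Agent.helper90.LT.Exch
import Pool.Agent.helper90.LU.Indep

namespace LT

open LU

universe u

variable {k K : Type u} [Field k] [Field K] [Algebra k K]

/-- A germ of a curve in `K` at the center of `V` on which `f` is a monomial times a unit, with
exponent prime to the characteristic. -/
structure KGerm (V : ValuationSubring K) (f u w : K) (Φ N D : MvPolynomial (Fin 2) k)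
    (m : ℤ) : Prop where
  hu0 : u ≠ 0
  huV : u ∈ V
  hwV : w ∈ V
  hΦ : MvPolynomial.aeval ![u, w] Φ = 0
  hΦ0 : MvPolynomial.aeval ![u, w] (MvPolynomial.pderiv 1 Φ) ≠ 0
  hΦV : (MvPolynomial.aeval ![u, w] (MvPolynomial.pderiv 1 Φ))⁻¹ ∈ V
  hN0 : MvPolynomial.aeval ![u, w] N ≠ 0
  hNV : (MvPolynomial.aeval ![u, w] N)⁻¹ ∈ V
  hD0 : MvPolynomial.aeval ![u, w] D ≠ 0
  hDV : (MvPolynomial.aeval ![u, w] D)⁻¹ ∈ V
  fac : f = u ^ m * (MvPolynomial.aeval ![u, w] N / MvPolynomial.aeval ![u, w] D)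
  hm : (m : k) ≠ 0
  dir : u⁻¹ ∉ V ∨ (N = 1 ∧ D = 1)

lemma coe_aeval' (F : IntermediateField k K) (u w : F) (q : MvPolynomial (Fin 2) k) :
    ((MvPolynomial.aeval ![u, w] q : F) : K) =
      MvPolynomial.aeval ![(u : K), (w : K)] q := by
  have : F.val.comp (MvPolynomial.aeval ![u, w]) = MvPolynomial.aeval ![(u : K), (w : K)] := by
    apply MvPolynomial.algHom_ext
    intro i
    fin_cases i <;> simp
  rw [← this]
  rfl

/-- the trace of the valuation ring on a subfield -/
abbrev trc (V : ValuationSubring K) (F : IntermediateField k K) : ValuationSubring F :=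
  V.comap (algebraMap F K)

lemma TGerm.toK {V : ValuationSubring K} {F : IntermediateField k K} {g u w : F}
    {Φ N D : MvPolynomial (Fin 2) k} {m : ℤ} {c : k}
    (h : TGerm (trc V F) g u w Φ N D m c) :
    KGerm V ((g : K) - algebraMap k K c) (u : K) (w : K) Φ N D m := by
  have tr0 : ∀ (q : MvPolynomial (Fin 2) k), MvPolynomial.aeval ![u, w] q ≠ 0 →
      MvPolynomial.aeval ![(u : K), (w : K)] q ≠ 0 := by
    intro q hq
    rw [← coe_aeval']
    intro h0
    exact hq (Subtype.ext h0)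
  have trV : ∀ (q : MvPolynomial (Fin 2) k), (MvPolynomial.aeval ![u, w] q)⁻¹ ∈ trc V F →
      (MvPolynomial.aeval ![(u : K), (w : K)] q)⁻¹ ∈ V := by
    intro q hq
    rw [← coe_aeval']
    exact hq
  refine ⟨fun h0 => h.hu0 (Subtype.ext h0), h.huO, h.hwO, ?_, tr0 _ h.hΦ0, trV _ h.hΦO,
    tr0 _ h.hN0, trV _ h.hNO, tr0 _ h.hD0, trV _ h.hDO, ?_, h.hm, ?_⟩
  · rw [← coe_aeval', h.hΦ]; rfl
  · have := congrArg (fun x : F => (x : K)) h.fac
    rw [← coe_aeval', ← coe_aeval']
    have e : ((u ^ m : F) : K) = (u : K) ^ m := map_zpow₀ (algebraMap F K) u m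
    rw [← e]
    simpa using this
  · rcases h.dir with h1 | h1
    · left
      exact h1
    · exact Or.inr h1

/-- the germ of a coordinate -/
lemma KGerm.coord (V : ValuationSubring K) {z : K} (hz : z ≠ 0) :
    ∃ (u : K) (m : ℤ), KGerm (k := k) V z u 0 (MvPolynomial.X 1) 1 1 m ∧ z = u ^ m ∧
      u = z ^ m := by
  have hd : MvPolynomial.pderiv (1 : Fin 2) (MvPolynomial.X 1 : MvPolynomial (Fin 2) k) = 1 :=
    MvPolynomial.pderiv_X_self _
  by_cases h : z ∈ V
  · refine ⟨z, 1, ⟨hz, h, zero_mem _, by simp, by simp [hd], by simp [hd, one_mem], by simp,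
      by simp [one_mem], by simp, by simp [one_mem], by simp, by simp, Or.inr ⟨rfl, rfl⟩⟩,
      by simp, by simp⟩
  · have h' : z⁻¹ ∈ V := (V.mem_or_inv_mem _).resolve_left h
    refine ⟨z⁻¹, -1, ⟨inv_ne_zero hz, h', zero_mem _, by simp, by simp [hd],
      by simp [hd, one_mem], by simp, by simp [one_mem], by simp, by simp [one_mem], by simp,
      by simp, Or.inr ⟨rfl, rfl⟩⟩, by simp, by simp⟩

/-- echelon form, allowing empty column sets -/
theorem ech_lin' {k R C : Type*} [Field k] [Fintype R] [DecidableEq R] [DecidableEq C] [Fintype C]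
    (A : Matrix R C k) (le : C → C → Prop)
    (hmax : ∀ T : Finset C, T.Nonempty → ∃ i ∈ T, ∀ i' ∈ T, le i' i)
    (hA : ∀ v : R → k, Matrix.vecMul v A = 0 → v = 0) :
    ∃ (P Q : Matrix R R k) (π : R → C), Q * P = 1 ∧ ∀ j, (P * A) j (π j) ≠ 0 ∧
      (∀ l, l ≠ j → (P * A) l (π j) = 0) ∧ ∀ i, (P * A) j i ≠ 0 → le i (π j) := by
  rcases isEmpty_or_nonempty C with hC | hC
  · have h1 := hA (fun _ => 1) (funext fun i => hC.elim i)
    have hR : IsEmpty R := ⟨fun r => one_ne_zero (congrFun h1 r)⟩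
    exact ⟨1, 1, fun r => hR.elim r, by simp, fun r => hR.elim r⟩
  · exact ech_lin A le hmax hA

/-- the Frobenius powers of the coordinates, up to level `S` -/
def zs (p : ℕ) {n : ℕ} (z : Fin n → K) (S : ℕ) : Fin n × Fin (S + 1) → K :=
  fun l => z l.1 ^ p ^ (l.2 : ℕ)

lemma zs_mono (p : ℕ) {n : ℕ} (z : Fin n → K) :
    Monotone fun S => Submodule.span k (insert 1 (Set.range (zs p z S))) := by
  intro S S' h
  apply Submodule.span_mono
  apply Set.insert_subset_insert
  rintro _ ⟨⟨j, s⟩, rfl⟩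
  exact ⟨(j, ⟨s, by omega⟩), rfl⟩

lemma exists_level (p : ℕ) {n N : ℕ} (z : Fin n → K) (g : Fin N → K)
    (hg : ∀ i, g i ∈ Submodule.span k (insert 1 {y | ∃ j, ∃ s : ℕ, y = z j ^ p ^ s})) :
    ∃ S, ∀ i, g i ∈ Submodule.span k (insert 1 (Set.range (zs p z S))) := by
  have h1 : ∀ i, ∃ S, g i ∈ Submodule.span k (insert 1 (Set.range (zs p z S))) := by
    intro i
    rw [← Submodule.mem_iSup_of_directed _ (zs_mono p z).directed_le]
    refine (Submodule.span_le.2 ?_) (hg i)
    rintro y (rfl | ⟨j, s, rfl⟩)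
    · exact Submodule.mem_iSup_of_mem 0 (Submodule.subset_span (Set.mem_insert _ _))
    · refine Submodule.mem_iSup_of_mem s (Submodule.subset_span (Set.mem_insert_of_mem _ ?_))
      exact ⟨(j, ⟨s, by omega⟩), rfl⟩
  choose S hS using h1
  refine ⟨Finset.univ.sup S, fun i => ?_⟩
  exact zs_mono p z (Finset.le_sup (Finset.mem_univ i)) (hS i)

/-- Frobenius powers of independent coordinates are linearly independent modulo constants. -/
lemma zs_indep (p : ℕ) (hp : 2 ≤ p) {n : ℕ} {z : Fin n → K} (hz : AlgebraicIndependent k z)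
    {S : ℕ} (v : Fin n × Fin S → k) (c : k)
    (h : ∑ l, algebraMap k K (v l) * z l.1 ^ p ^ ((l.2 : ℕ) + 1) = algebraMap k K c) : v = 0 := by
  classical
  let f : MvPolynomial (Fin n) k :=
    (∑ l : Fin n × Fin S, MvPolynomial.C (v l) * MvPolynomial.X l.1 ^ p ^ ((l.2 : ℕ) + 1)) -
      MvPolynomial.C c
  have hf : f = 0 := by
    apply hz
    rw [map_zero]
    simp only [f, map_sub, map_sum, map_mul, map_pow, MvPolynomial.aeval_C, MvPolynomial.aeval_X]
    rw [h, sub_self]
  funext l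
  have hc := congrArg (MvPolynomial.coeff (Finsupp.single l.1 (p ^ ((l.2 : ℕ) + 1)))) hf
  simp only [f, MvPolynomial.coeff_sub, MvPolynomial.coeff_sum, MvPolynomial.coeff_C_mul,
    MvPolynomial.coeff_zero, MvPolynomial.coeff_C] at hc
  have hpos : ∀ s : ℕ, p ^ s ≠ 0 := fun s => pow_ne_zero _ (by omega)
  have hne : (0 : Fin n →₀ ℕ) ≠ Finsupp.single l.1 (p ^ ((l.2 : ℕ) + 1)) := by
    intro h0
    have := congrArg (fun q => q l.1) h0
    simp only [Finsupp.coe_zero, Pi.zero_apply, Finsupp.single_eq_same] at this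
    exact hpos _ this.symm
  rw [if_neg hne, sub_zero, Finset.sum_eq_single l] at hc
  · rw [MvPolynomial.coeff_X_pow, if_pos rfl, mul_one] at hc
    exact hc
  · intro l' _ hl'
    rw [MvPolynomial.coeff_X_pow, if_neg, mul_zero]
    intro h0
    apply hl'
    rw [Finsupp.single_eq_single_iff] at h0
    rcases h0 with ⟨h1, h2⟩ | ⟨h1, -⟩
    · have h3 := Nat.pow_right_injective hp h2
      apply Prod.ext h1
      apply Fin.ext
      omega
    · exact absurd h1 (hpos _)
  · simp

end LT
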