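import Mathlib

namespace LT

universe u

section

variable {k K : Type u} [Field k] [Field K] [Algebra k K] (V : ValuationSubring K)

/-- the combination `c + ∑ a_m x_m` -/
noncomputable def comb {M : ℕ} (x : Fin M → K) (c : k) (a : Fin M → k) : K :=
  algebraMap k K c + ∑ m, algebraMap k K (a m) * x m

variable (k) in
/-- the span of `1` and the `x m` -/
def Sp {M : ℕ} (x : Fin M → K) : Submodule k K := Submodule.span k (insert 1 (Set.range x))

lemma mem_Sp {M : ℕ} (x : Fin M → K) (y : K) : y ∈ Sp k x ↔ ∃ c a, y = comb (k := k) x c a := by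
  unfold Sp
  rw [Submodule.mem_span_insert]
  constructor
  · rintro ⟨c, z, hz, rfl⟩
    obtain ⟨a, rfl⟩ := (Submodule.mem_span_range_iff_exists_fun k).1 hz
    refine ⟨c, a, ?_⟩
    simp [comb, Algebra.smul_def]
  · rintro ⟨c, a, rfl⟩
    refine ⟨c, ∑ m, a m • x m, ?_, ?_⟩
    · exact (Submodule.mem_span_range_iff_exists_fun k).2 ⟨a, rfl⟩
    · simp [comb, Algebra.smul_def]

variable (k) in
/-- A family is adapted to the valuation if it is orthogonal, together with `1`. -/
structure Adapted {M : ℕ} (x : Fin M → K) : Prop where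
  ne : ∀ m, x m ≠ 0
  le : ∀ (c : k) (a : Fin M → k) m, a m ≠ 0 → V.valuation (x m) ≤ V.valuation (comb x c a)
  one : ∀ (c : k) (a : Fin M → k), c ≠ 0 → 1 ≤ V.valuation (comb x c a)

variable {V}

lemma val_k (hV : ∀ c : k, algebraMap k K c ∈ V) {c : k} (hc : c ≠ 0) :
    V.valuation (algebraMap k K c) = 1 := by
  apply le_antisymm
  · exact (V.valuation_le_one_iff _).2 (hV c)
  · have h1 : V.valuation (algebraMap k K c)⁻¹ ≤ 1 := by
      rw [V.valuation_le_one_iff, ← map_inv₀]
      exact hV _
    rw [map_inv₀] at h1
    have h0 : V.valuation (algebraMap k K c) ≠ 0 := by simpa using hc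
    exact (inv_le_one₀ (zero_lt_iff.2 h0)).1 h1

/-- an element of the span has the valuation of `1` or of one of the `x m`, or vanishes -/
lemma Adapted.val_mem (hV : ∀ c : k, algebraMap k K c ∈ V) {M : ℕ} {x : Fin M → K}
    (h : Adapted k V x) {y : K} (hy : y ∈ Sp k x) (hy0 : y ≠ 0) :
    V.valuation y = 1 ∨ ∃ m, V.valuation y = V.valuation (x m) := by
  obtain ⟨c, a, rfl⟩ := (mem_Sp x y).1 hy
  by_contra hcon
  rw [not_or] at hcon
  obtain ⟨h1, h2⟩ := hcon
  push Not at h2
  have hpos : 0 < V.valuation (comb x c a) := zero_lt_iff.2 (by simpa using hy0)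
  have hlt : V.valuation (comb x c a) < V.valuation (comb x c a) := by
    conv_lhs => unfold comb
    apply Valuation.map_add_lt
    · by_cases hc : c = 0
      · have : V.valuation (algebraMap k K c) = 0 := by rw [hc, map_zero, map_zero]
        rw [this]
        exact hpos
      · rw [val_k hV hc]
        exact lt_of_le_of_ne (h.one c a hc) (Ne.symm h1)
    · apply Valuation.map_sum_lt
      · simpa using hy0
      · intro m _
        by_cases hm : a m = 0
        · rw [hm, map_zero, zero_mul, map_zero]
          exact hpos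
        · rw [map_mul, val_k hV hm, one_mul]
          exact lt_of_le_of_ne (h.le c a m hm) (Ne.symm (h2 m))
  exact lt_irrefl _ hlt

lemma comb_snoc {M : ℕ} (x : Fin M → K) (y : K) (c : k) (a : Fin (M + 1) → k) :
    comb (Fin.snoc x y : Fin (M + 1) → K) c a = comb x c (fun m => a m.castSucc) +
      algebraMap k K (a (Fin.last M)) * y := by
  unfold comb
  rw [Fin.sum_univ_castSucc]
  simp only [Fin.snoc_castSucc, Fin.snoc_last]
  ring

lemma exists_min (hV : ∀ c : k, algebraMap k K c ∈ V) {M : ℕ} {x : Fin M → K}
    (h : Adapted k V x) (y : K) : ∃ y', y' - y ∈ Sp k x ∧ ∀ z, z - y ∈ Sp k x →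
      V.valuation y' ≤ V.valuation z := by
  classical
  by_contra hcon
  push Not at hcon
  -- values of the coset lie in a finite set
  let T : Set V.ValueGroup := {1} ∪ Set.range (fun m => V.valuation (x m))
  have hT : T.Finite := (Set.finite_singleton _).union (Set.finite_range _)
  have key : ∀ y', y' - y ∈ Sp k x → V.valuation y' ∈ T := by
    intro y' hy'
    obtain ⟨z, hz, hlt⟩ := hcon y' hy'
    have h1 : y' - z ∈ Sp k x := by
      have := Submodule.sub_mem _ hy' hz
      simpa using this
    have hne : y' - z ≠ 0 := by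
      intro h0
      rw [sub_eq_zero.1 h0] at hlt
      exact lt_irrefl _ hlt
    have h2 : V.valuation (y' - z) = V.valuation y' :=
      Valuation.map_sub_eq_of_lt_left _ hlt
    rcases h.val_mem hV h1 hne with h3 | ⟨m, h3⟩
    · left
      rw [← h2]
      exact h3
    · right
      exact ⟨m, by rw [← h2]; exact h3.symm⟩
  let T' : Set V.ValueGroup := {γ | ∃ y', y' - y ∈ Sp k x ∧ V.valuation y' = γ}
  have hT' : T'.Finite := hT.subset (by
    rintro γ ⟨y', hy', rfl⟩
    exact key y' hy')
  have hne : T'.Nonempty := ⟨_, y, by simp, rfl⟩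
  obtain ⟨γ, ⟨y', hy', rfl⟩, hmin⟩ := hT'.exists_minimal hne
  obtain ⟨z, hz, hlt⟩ := hcon y' hy'
  have := hmin ⟨z, hz, rfl⟩ hlt.le
  exact absurd hlt (not_lt.2 this)

theorem exists_adapted (hV : ∀ c : k, algebraMap k K c ∈ V) : ∀ (N : ℕ) (b : Fin N → K),
    ∃ (M : ℕ) (x : Fin M → K), Adapted k V x ∧ (∀ i, b i ∈ Sp k x) ∧ ∀ m, x m ∈ Sp k b := by
  intro N
  induction N with
  | zero =>
    intro b
    refine ⟨0, Fin.elim0, ⟨fun m => m.elim0, fun _ _ m => m.elim0, ?_⟩, fun i => i.elim0,
      fun m => m.elim0⟩
    intro c a hc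
    simp only [comb, Finset.univ_eq_empty, Finset.sum_empty, add_zero]
    rw [val_k hV hc]
  | succ N ih =>
    intro b
    obtain ⟨M, x, hx, h1, h2⟩ := ih (fun i => b i.castSucc)
    have hle : ∀ m, x m ∈ Sp k b := by
      intro m
      refine Submodule.span_mono ?_ (h2 m)
      apply Set.insert_subset_insert
      rintro _ ⟨i, rfl⟩
      exact ⟨_, rfl⟩
    have hspx : Sp k x ≤ Sp k b := by
      unfold Sp
      rw [Submodule.span_le]
      rintro _ (rfl | ⟨m, rfl⟩)
      · exact Submodule.subset_span (Set.mem_insert _ _)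
      · exact hle m
    by_cases hy : b (Fin.last N) ∈ Sp k x
    · refine ⟨M, x, hx, ?_, hle⟩
      intro i
      rcases Fin.eq_castSucc_or_eq_last i with ⟨j, rfl⟩ | rfl
      · exact h1 j
      · exact hy
    obtain ⟨y', hy', hmin⟩ := exists_min hV hx (b (Fin.last N))
    have hy'0 : y' ≠ 0 := by
      rintro rfl
      apply hy
      have := Submodule.neg_mem _ hy'
      simpa using this
    have hsub : Sp k x ≤ Sp k (Fin.snoc x y' : Fin (M + 1) → K) := by
      unfold Sp
      apply Submodule.span_mono
      apply Set.insert_subset_insert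
      rintro _ ⟨m, rfl⟩
      exact ⟨m.castSucc, by simp⟩
    have hy'mem : y' ∈ Sp k (Fin.snoc x y' : Fin (M + 1) → K) :=
      Submodule.subset_span (Set.mem_insert_of_mem _ ⟨Fin.last M, by simp⟩)
    -- valuation of a combination involving `y'`
    have hval : ∀ (c : k) (a : Fin (M + 1) → k), a (Fin.last M) ≠ 0 →
        V.valuation y' ≤ V.valuation (comb (Fin.snoc x y' : Fin (M + 1) → K) c a) := by
      intro c a ha
      rw [comb_snoc]
      set w := comb x c (fun m => a m.castSucc) with hw
      have hwS : w ∈ Sp k x := (mem_Sp x w).2 ⟨_, _, rfl⟩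
      have e1 : w + algebraMap k K (a (Fin.last M)) * y' = algebraMap k K (a (Fin.last M)) *
          (y' + algebraMap k K (a (Fin.last M))⁻¹ * w) := by
        have : algebraMap k K (a (Fin.last M)) ≠ 0 := by simpa using ha
        rw [map_inv₀]
        field_simp
        ring
      rw [e1, map_mul, val_k hV ha, one_mul]
      apply hmin
      have : y' + algebraMap k K (a (Fin.last M))⁻¹ * w - b (Fin.last N) =
          (y' - b (Fin.last N)) + (a (Fin.last M))⁻¹ • w := by
        rw [Algebra.smul_def]; ring
      rw [this]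
      exact Submodule.add_mem _ hy' (Submodule.smul_mem _ _ hwS)
    refine ⟨M + 1, Fin.snoc x y', ⟨?_, ?_, ?_⟩, ?_, ?_⟩
    · intro m
      rcases Fin.eq_castSucc_or_eq_last m with ⟨j, rfl⟩ | rfl
      · rw [Fin.snoc_castSucc]; exact hx.ne j
      · rw [Fin.snoc_last]; exact hy'0
    · intro c a m ham
      by_cases ha : a (Fin.last M) = 0
      · have hc : comb (Fin.snoc x y' : Fin (M + 1) → K) c a =
            comb x c (fun m => a m.castSucc) := by
          rw [comb_snoc, ha, map_zero, zero_mul, add_zero]
        rcases Fin.eq_castSucc_or_eq_last m with ⟨j, rfl⟩ | rfl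
        · rw [Fin.snoc_castSucc, hc]
          exact hx.le c _ j ham
        · exact absurd ha ham
      · have hv := hval c a ha
        rcases Fin.eq_castSucc_or_eq_last m with ⟨j, rfl⟩ | rfl
        · rw [Fin.snoc_castSucc]
          have h3 := hx.le c (fun m => a m.castSucc) j ham
          refine h3.trans ?_
          have e2 : comb x c (fun m => a m.castSucc) =
              comb (Fin.snoc x y' : Fin (M + 1) → K) c a -
                algebraMap k K (a (Fin.last M)) * y' := by
            rw [comb_snoc]; ring
          rw [e2]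
          refine (Valuation.map_sub _ _ _).trans (max_le le_rfl ?_)
          rw [map_mul, val_k hV ha, one_mul]
          exact hv
        · rw [Fin.snoc_last]
          exact hv
    · intro c a hc
      by_cases ha : a (Fin.last M) = 0
      · rw [comb_snoc, ha, map_zero, zero_mul, add_zero]
        exact hx.one c _ hc
      · have hv := hval c a ha
        have h3 := hx.one c (fun m => a m.castSucc) hc
        refine h3.trans ?_
        have e2 : comb x c (fun m => a m.castSucc) =
            comb (Fin.snoc x y' : Fin (M + 1) → K) c a -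
              algebraMap k K (a (Fin.last M)) * y' := by
          rw [comb_snoc]; ring
        rw [e2]
        refine (Valuation.map_sub _ _ _).trans (max_le le_rfl ?_)
        rw [map_mul, val_k hV ha, one_mul]
        exact hv
    · intro i
      rcases Fin.eq_castSucc_or_eq_last i with ⟨j, rfl⟩ | rfl
      · exact hsub (h1 j)
      · have := Submodule.sub_mem _ hy'mem (hsub hy')
        simpa using this
    · intro m
      rcases Fin.eq_castSucc_or_eq_last m with ⟨j, rfl⟩ | rfl
      · rw [Fin.snoc_castSucc]; exact hle j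
      · rw [Fin.snoc_last]
        have hb : b (Fin.last N) ∈ Sp k b :=
          Submodule.subset_span (Set.mem_insert_of_mem _ ⟨_, rfl⟩)
        have := Submodule.add_mem _ (hspx hy') hb
        simpa using this

/-- linear independence of `1` and an adapted family -/
lemma Adapted.indep {M : ℕ} {x : Fin M → K} (h : Adapted k V x) {c : k} {a : Fin M → k}
    (h0 : comb x c a = 0) : c = 0 ∧ a = 0 := by
  constructor
  · by_contra hc
    have := h.one c a hc
    rw [h0, map_zero] at this
    exact absurd this (by simp)
  · funext m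
    by_contra hm
    have := h.le c a m hm
    rw [h0, map_zero, le_zero_iff, map_eq_zero] at this
    exact h.ne m this

end

end LT
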