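import Pool.Agent.helper90.LT.AlgD

namespace LT

open LU

universe u

section alg

variable {k K : Type u} [Field k] [Field K] [Algebra k K]

/-- `K` is algebraic over the field generated by the coordinates. -/
theorem algebraic_of_adjoin {n N : ℕ} (v z : Fin n → K)
    (hz : ∀ j, z j ∈ IntermediateField.adjoin k (Set.range v))
    (F : Fin N → IntermediateField k K) (g : ∀ i, F i)
    (hg : ∀ i, (g i : K) ∈ IntermediateField.adjoin k (Set.range z))
    (halg : ∀ i, Algebra.IsAlgebraic (IntermediateField.adjoin k {g i}) (F i))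
    {Z : Set K} (hZ : ∀ x ∈ Z, ∃ m : ℕ, 0 < m ∧
      x ^ m ∈ IntermediateField.adjoin k (Set.range z) ⊔ ⨆ i, F i)
    (hgen : IntermediateField.adjoin k (Set.range z) ⊔ (⨆ i, F i) ⊔
      IntermediateField.adjoin k Z = ⊤) :
    Algebra.IsAlgebraic (IntermediateField.adjoin k (Set.range v)) K := by
  set L := IntermediateField.adjoin k (Set.range v) with hL
  have hzL : IntermediateField.adjoin k (Set.range z) ≤ L := by
    rw [IntermediateField.adjoin_le_iff]
    rintro _ ⟨j, rfl⟩
    exact hz j
  let Ac : IntermediateField k K := (algebraicClosure L K).restrictScalars k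
  have hmem : ∀ x : K, x ∈ Ac ↔ IsAlgebraic L x := fun x => mem_algebraicClosure_iff
  have hF : ∀ i, F i ≤ Ac := by
    intro i x hx
    rw [hmem]
    obtain ⟨q, hq0, hq⟩ := (halg i).isAlgebraic (⟨x, hx⟩ : F i)
    have hle : ∀ y : IntermediateField.adjoin k {g i}, ((y : F i) : K) ∈ L := by
      intro y
      have h2 : ((y : F i) : K) ∈ (IntermediateField.adjoin k {g i}).map (F i).val :=
        ⟨_, y.2, rfl⟩
      rw [IntermediateField.adjoin_map] at h2
      have h3 : IntermediateField.adjoin k ((F i).val '' {g i}) ≤ L := by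
        rw [IntermediateField.adjoin_le_iff]
        rintro _ ⟨y, rfl, rfl⟩
        exact hzL (hg i)
      exact h3 h2
    let f : IntermediateField.adjoin k {g i} →+* L :=
      { toFun := fun z => ⟨((z : F i) : K), hle z⟩
        map_one' := rfl
        map_mul' := fun _ _ => rfl
        map_zero' := rfl
        map_add' := fun _ _ => rfl }
    refine ⟨q.map f, (Polynomial.map_ne_zero_iff f.injective).2 hq0, ?_⟩
    rw [Polynomial.aeval_def, Polynomial.eval₂_map]
    rw [Polynomial.aeval_def] at hq
    have h4 := Polynomial.hom_eval₂ q (algebraMap (IntermediateField.adjoin k {g i}) (F i))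
      (algebraMap (F i) K) (⟨x, hx⟩ : F i)
    rw [hq, map_zero] at h4
    exact h4.symm
  have hL' : L ≤ Ac := by
    intro x hx
    rw [hmem]
    exact isAlgebraic_algebraMap (⟨x, hx⟩ : L)
  have h0 : IntermediateField.adjoin k (Set.range z) ⊔ (⨆ i, F i) ≤ Ac :=
    sup_le (hzL.trans hL') (iSup_le hF)
  have htop : Ac = ⊤ := by
    rw [eq_top_iff, ← hgen]
    refine sup_le h0 ?_
    rw [IntermediateField.adjoin_le_iff]
    intro x hx
    obtain ⟨m, hm, hxm⟩ := hZ x hx
    have h1 := h0 hxm
    rw [hmem] at h1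
    exact (hmem x).2 (IsAlgebraic.of_pow hm h1)
  refine ⟨fun x => ?_⟩
  rw [← hmem, htop]
  trivial

/-- Kummer data over a system, from tame Kummer relations over the germs. -/
theorem exists_kum {V : ValuationSubring K} {ι X J T H : Type} [Fintype ι] [DecidableEq ι]
    [Fintype X] [DecidableEq X] [Fintype J] [Fintype T] [Fintype H]
    (d : LG.GDat (k := k) V ι X J T H) {N L : ℕ} (F : Fin N → IntermediateField k K)
    (em : Fin N → ι) (u w : ∀ i, F i) (Φ : Fin N → MvPolynomial (Fin 2) k)
    (hger : ∀ i, IsGerm (trc V (F i)) (u i) (w i) (Φ i))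
    (hdu : ∀ i, d.u (em i) = u i) (hdw : ∀ i, d.w (em i) = w i)
    (ζ : Fin L → K) (m : Fin L → ℕ) (hζ : ∀ l, ζ l ≠ 0) (hm : ∀ l, (m l : k) ≠ 0)
    (hk : ∀ l, ∃ h : ∀ i, F i, ζ l ^ m l = ∏ i, (h i : K)) :
    ∃ q : LG.KumDat d (Fin L) (Fin L × Fin N), q.ζ = ζ := by
  choose h hh using hk
  have hne : ∀ l i, h l i ≠ 0 := by
    intro l i h0
    have h1 : ζ l ^ m l = 0 := by
      rw [hh l]
      exact Finset.prod_eq_zero (Finset.mem_univ i) (by rw [h0]; rfl)
    exact pow_ne_zero _ (hζ l) h1
  choose e N' D' h1 h2 h3 h4 h5 using fun (a : Fin L × Fin N) => facs (hger a.2) (h a.1 a.2) (hne a.1 a.2)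
  have tr0 : ∀ i (q : MvPolynomial (Fin 2) k), MvPolynomial.aeval ![u i, w i] q ≠ 0 →
      MvPolynomial.aeval ![d.u (em i), d.w (em i)] q ≠ 0 := by
    intro i q hq
    rw [hdu, hdw, ← coe_aeval']
    intro h0
    exact hq (Subtype.ext h0)
  have trV : ∀ i (q : MvPolynomial (Fin 2) k), (MvPolynomial.aeval ![u i, w i] q)⁻¹ ∈ trc V (F i) →
      (MvPolynomial.aeval ![d.u (em i), d.w (em i)] q)⁻¹ ∈ V := by
    intro i q hq
    rw [hdu, hdw, ← coe_aeval']
    exact hq
  have hem : ∀ l, ∏ i, d.u (em i) ^ e (l, i) = mon d.u (fun a => ∑ i, if em i = a then e (l, i) else 0) := by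
    intro l
    unfold mon
    have : ∀ a, d.u a ^ (∑ i, if em i = a then e (l, i) else 0) =
        ∏ i, if em i = a then d.u a ^ e (l, i) else 1 := by
      intro a
      have hz : ∀ (s : Finset (Fin N)) , d.u a ^ (∑ i ∈ s, if em i = a then e (l, i) else 0) =
        ∏ i ∈ s, if em i = a then d.u a ^ e (l, i) else 1 := by
        intro s
        induction s using Finset.cons_induction with
        | empty => simp
        | cons b s hb ih =>
          rw [Finset.sum_cons, Finset.prod_cons, zpow_add₀ (d.hu0 a), ih]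
          congr 1
          split_ifs <;> simp
      exact hz _
    simp only [this]
    rw [Finset.prod_comm]
    refine Finset.prod_congr rfl fun i _ => ?_
    rw [Finset.prod_eq_single (em i)]
    · rw [if_pos rfl]
    · intro b _ hb
      rw [if_neg (Ne.symm hb)]
    · simp
  refine ⟨{
    ζ := ζ
    m := m
    E := fun l a => ∑ i, if em i = a then e (l, i) else 0
    G := fun l a => if a.1 = l then 1 else 0
    gi := fun a => em a.2
    N := N'
    D := D'
    hζ0 := hζ
    hm := hm
    hN0 := fun a => tr0 _ _ (h1 a)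
    hNV := fun a => trV _ _ (h2 a)
    hD0 := fun a => tr0 _ _ (h3 a)
    hDV := fun a => trV _ _ (h4 a)
    rel := ?_ }, rfl⟩
  intro l
  rw [hh l, ← hem l]
  have e1 : ∏ a : Fin L × Fin N, (MvPolynomial.aeval ![d.u (em a.2), d.w (em a.2)] (N' a) /
      MvPolynomial.aeval ![d.u (em a.2), d.w (em a.2)] (D' a)) ^ (if a.1 = l then 1 else 0) =
      ∏ i, (MvPolynomial.aeval ![d.u (em i), d.w (em i)] (N' (l, i)) /
      MvPolynomial.aeval ![d.u (em i), d.w (em i)] (D' (l, i))) := by
    rw [Fintype.prod_prod_type]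
    rw [Finset.prod_eq_single l]
    · simp
    · intro b _ hb
      simp [hb]
    · simp
  rw [e1, ← Finset.prod_mul_distrib]
  refine Finset.prod_congr rfl fun i _ => ?_
  have h6 := congrArg (Subtype.val : F i → K) (h5 (l, i))
  rw [h6]
  have h7 : ((u i ^ e (l, i) * (MvPolynomial.aeval ![u i, w i] (N' (l, i)) /
      MvPolynomial.aeval ![u i, w i] (D' (l, i))) : F i) : K) =
      (u i : K) ^ e (l, i) * (((MvPolynomial.aeval ![u i, w i] (N' (l, i)) : F i) : K) /
      ((MvPolynomial.aeval ![u i, w i] (D' (l, i)) : F i) : K)) := by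
    push_cast
    rfl
  rw [h7, coe_aeval', coe_aeval', hdu, hdw]

end alg

section main

variable {k K : Type u} [Field k] [IsAlgClosed k] [Field K] [Algebra k K]
  (p : ℕ) [Fact p.Prime] [CharP k p]

theorem add_lu_loc {n N L : ℕ} (z : Fin n → K) (F : Fin N → IntermediateField k K) (g : ∀ i, F i)
    (V : ValuationSubring K) (hV : ∀ c : k, algebraMap k K c ∈ V)
    (halgF : ∀ i, Algebra.IsAlgebraic (IntermediateField.adjoin k {g i}) (F i))
    (hgtr : ∀ i, Transcendental k (g i))
    (hgerm : ∀ i, ∃ (u w : F i) (Φ N' D : MvPolynomial (Fin 2) k) (m : ℤ) (c : k),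
      TGerm (trc V (F i)) (g i) u w Φ N' D m c)
    (hadd : ∀ i, (g i : K) ∈ Submodule.span k (insert 1 {y | ∃ j, ∃ s : ℕ, y = z j ^ p ^ s}))
    (ζ : Fin L → K) (mζ : Fin L → ℕ) (hζ : ∀ l, ζ l ≠ 0) (hmζ : ∀ l, (mζ l : k) ≠ 0)
    (hk : ∀ l, ∃ h : ∀ i, F i, ζ l ^ mζ l = ∏ i, (h i : K))
    (hgen : IntermediateField.adjoin k (Set.range z) ⊔ (⨆ i, F i) ⊔
      IntermediateField.adjoin k (Set.range ζ) = ⊤)
    (hn : Algebra.trdeg k K = n) : Uniformizable k V := by
  classical
  have hp : 2 ≤ p := (Fact.out : p.Prime).two_le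
  have hp0 : p ≠ 0 := by omega
  have hCK : CharP K p := charP_of_injective_algebraMap (algebraMap k K).injective p
  have hEK : ExpChar K p := ExpChar.prime Fact.out
  have hroot : ∀ c : k, ∃ d, d ^ p = c := fun c => IsAlgClosed.exists_pow_nat_eq c (by omega)
  -- algebraicity and independence
  have hgz : ∀ i, (g i : K) ∈ IntermediateField.adjoin k (Set.range z) := by
    intro i
    have h1 : Submodule.span k (insert 1 {y | ∃ j, ∃ s : ℕ, y = z j ^ p ^ s}) ≤
        (IntermediateField.adjoin k (Set.range z)).toSubalgebra.toSubmodule := by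
      rw [Submodule.span_le]
      rintro y (rfl | ⟨j, s, rfl⟩)
      · exact one_mem (IntermediateField.adjoin k (Set.range z))
      · have h1 : z j ∈ IntermediateField.adjoin k (Set.range z) :=
          IntermediateField.subset_adjoin k _ ⟨j, rfl⟩
        exact pow_mem h1 _
    exact h1 (hadd i)
  have hZ : ∀ x ∈ Set.range ζ, ∃ m : ℕ, 0 < m ∧
      x ^ m ∈ IntermediateField.adjoin k (Set.range z) ⊔ ⨆ i, F i := by
    rintro _ ⟨l, rfl⟩
    refine ⟨mζ l, Nat.pos_of_ne_zero fun h0 => hmζ l (by rw [h0]; simp), ?_⟩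
    obtain ⟨h, hh⟩ := hk l
    rw [hh]
    refine prod_mem fun i _ => ?_
    exact (le_sup_of_le_right (le_iSup F i) : F i ≤ _) (h i).2
  have hz : AlgebraicIndependent k z :=
    indep_of_trdeg z (algebraic_of_adjoin z z
      (fun j => IntermediateField.subset_adjoin _ _ ⟨j, rfl⟩) F g hgz halgF hZ hgen) hn
  have hz0 : ∀ j, z j ≠ 0 := fun j => hz.ne_zero j
  -- the level
  obtain ⟨S, hS⟩ := exists_level (k := k) p z (fun i => (g i : K)) hadd
  -- the adapted basis
  let eb : Fin (n * (S + 1)) ≃ Fin n × Fin (S + 1) := finProdFinEquiv.symm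
  obtain ⟨M, x, hx, hbx, hxb⟩ := exists_adapted hV (n * (S + 1)) (zs p z S ∘ eb)
  have hrange : Set.range (zs p z S ∘ eb) = Set.range (zs p z S) := eb.surjective.range_comp _
  have hzx : ∀ l, zs p z S l ∈ Sp k x := by
    intro l
    have := hbx (eb.symm l)
    simpa using this
  have hxz : ∀ m, x m ∈ Submodule.span k (insert 1 (Set.range (zs p z S))) := by
    intro m
    have := hxb m
    rwa [Sp, hrange] at this
  have hle : Submodule.span k (insert 1 (Set.range (zs p z S))) ≤ Sp k x := by
    rw [Submodule.span_le]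
    rintro y (rfl | ⟨l, rfl⟩)
    · exact Submodule.subset_span (Set.mem_insert _ _)
    · exact hzx l
  choose S1 SM hSM using fun l => (mem_Sp x _).1 (hzx l)
  have hT0 : ∀ m, ∃ (c : k) (a : Fin n × Fin (S + 1) → k),
      x m = algebraMap k K c + ∑ l, algebraMap k K (a l) * zs p z S l := by
    intro m
    have h1 := hxz m
    rw [Submodule.mem_span_insert] at h1
    obtain ⟨c, y, hy, h2⟩ := h1
    obtain ⟨a, rfl⟩ := (Submodule.mem_span_range_iff_exists_fun k).1 hy
    refine ⟨c, a, ?_⟩
    rw [h2]
    simp [Algebra.smul_def]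
  choose T1 TM hTM using hT0
  let co : Coef k p x z S := ⟨S1, SM, T1, TM, hSM, hTM⟩
  -- the additive rows
  let A : Matrix (Fin n × Fin S) (Fin M) k := fun l m => SM (up l) m
  have hA : ∀ v : Fin n × Fin S → k, Matrix.vecMul v A = 0 → v = 0 := by
    intro v hv
    refine zs_indep p hp hz v (∑ l, v l * S1 (up l)) ?_
    have h1 : ∀ l : Fin n × Fin S, z l.1 ^ p ^ ((l.2 : ℕ) + 1) = zs p z S (up l) := by
      intro l
      simp [zs, up]
    simp only [h1, hSM]
    unfold comb
    simp only [mul_add, Finset.sum_add_distrib, map_sum, map_mul, Finset.mul_sum]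
    rw [Finset.sum_comm, add_eq_left]
    apply Finset.sum_eq_zero
    intro m _
    have h2 := congrFun hv m
    simp only [Matrix.vecMul, dotProduct, Pi.zero_apply] at h2
    have h3 : ∑ l, algebraMap k K (v l) * (algebraMap k K (SM (up l) m) * x m) =
        algebraMap k K (∑ l, v l * A l m) * x m := by
      rw [map_sum, Finset.sum_mul]
      refine Finset.sum_congr rfl fun l _ => ?_
      rw [map_mul]
      simp only [A]
      ring
    rw [h3, h2, map_zero, zero_mul]
  obtain ⟨P, Q, π, hQP, hπ⟩ := ech_lin' A (fun a b => V.valuation (x a) ≤ V.valuation (x b))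
    (by
      intro T hT
      obtain ⟨i, hi, him⟩ := Finset.exists_max_image T (fun m => V.valuation (x m)) hT
      exact ⟨i, hi, fun i' hi' => him i' hi'⟩) hA
  have hrel0 : ∀ l : Fin n × Fin S, comb (fun m => x m ^ p)
      (S1 (lo l) ^ p - S1 (up l)) (fun m => SM (lo l) m ^ p) = comb x 0 (SM (up l)) := by
    intro l
    have h1 : zs p z S (up l) = zs p z S (lo l) ^ p := by
      simp only [zs, up, lo, Fin.val_succ, Fin.val_castSucc]
      rw [pow_succ, pow_mul]
    have h2 : zs p z S (lo l) ^ p = comb (fun m => x m ^ p) (S1 (lo l) ^ p)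
        (fun m => SM (lo l) m ^ p) := by
      rw [hSM]
      unfold comb
      rw [add_pow_expChar, ← map_pow, sum_pow_char]
      congr 1
      refine Finset.sum_congr rfl fun m _ => ?_
      rw [mul_pow, ← map_pow]
    rw [h1.symm, hSM] at h2
    unfold comb at h2 ⊢
    rw [map_sub, map_zero]
    linear_combination -h2
  -- the germs
  choose u w Φ N' D m c hG using hgerm
  have hGK := fun i => (hG i).toK
  have hf : ∀ i, ∃ (b : k) (a : Fin M → k), (g i : K) - algebraMap k K (c i) = comb x b a := by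
    intro i
    apply (mem_Sp x _).1
    refine Submodule.sub_mem _ (hle (hS i)) ?_
    have : algebraMap k K (c i) = c i • (1 : K) := by rw [Algebra.smul_def, mul_one]
    rw [this]
    exact Submodule.smul_mem _ _ (Submodule.subset_span (Set.mem_insert _ _))
  choose b a hba using hf
  choose uz mz hGz hz1 hz2 using fun j => KGerm.coord (k := k) V (hz0 j)
  let y : Sys (k := k) V p (Fin N ⊕ Fin n) (Fin n × Fin S) M :=
    { u := Sum.elim (fun i => (u i : K)) uz
      w := Sum.elim (fun i => (w i : K)) (fun _ => 0)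
      Φ := Sum.elim Φ (fun _ => MvPolynomial.X 1)
      N := Sum.elim N' (fun _ => 1)
      D := Sum.elim D (fun _ => 1)
      m := Sum.elim m mz
      bc := Sum.elim b (fun j => S1 (j, 0))
      ba := Sum.elim a (fun j => SM (j, 0))
      x := x
      γ1 := fun l => ∑ l', P l l' * (S1 (lo l') ^ p - S1 (up l'))
      γ := fun l m => ∑ l', P l l' * SM (lo l') m ^ p
      α := fun l m => (P * A) l m
      π := π
      hu0 := by rintro (i | j); exacts [(hGK i).hu0, (hGz j).hu0]
      huV := by rintro (i | j); exacts [(hGK i).huV, (hGz j).huV]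
      hwV := by rintro (i | j); exacts [(hGK i).hwV, (hGz j).hwV]
      hΦ := by rintro (i | j); exacts [(hGK i).hΦ, (hGz j).hΦ]
      hΦ0 := by rintro (i | j); exacts [(hGK i).hΦ0, (hGz j).hΦ0]
      hΦV := by rintro (i | j); exacts [(hGK i).hΦV, (hGz j).hΦV]
      hN0 := by rintro (i | j); exacts [(hGK i).hN0, (hGz j).hN0]
      hNV := by rintro (i | j); exacts [(hGK i).hNV, (hGz j).hNV]
      hD0 := by rintro (i | j); exacts [(hGK i).hD0, (hGz j).hD0]
      hDV := by rintro (i | j); exacts [(hGK i).hDV, (hGz j).hDV]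
      hm := by rintro (i | j); exacts [(hGK i).hm, (hGz j).hm]
      hdir := by rintro (i | j); exacts [(hGK i).dir, (hGz j).dir]
      hlin := by
        rintro (i | j)
        · exact (hba i).symm.trans (hGK i).fac
        · have h1 := hSM (j, 0)
          have h2 : zs p z S (j, 0) = z j := by simp [zs]
          rw [h2] at h1
          exact h1.symm.trans (hGz j).fac
      adapt := hx
      hrel := by
        intro l
        have h1 := lin_comb (algebraMap k K) (P l) (fun m => x m ^ p)
          (fun l' => S1 (lo l') ^ p - S1 (up l')) (fun l' m => SM (lo l') m ^ p)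
        have h2 := lin_comb (algebraMap k K) (P l) x
          (fun _ => 0) (fun l' => SM (up l'))
        simp only [mul_zero, Finset.sum_const_zero] at h2
        refine h1.trans (Eq.trans ?_ h2.symm)
        refine Finset.sum_congr rfl fun l' _ => ?_
        exact congrArg _ (hrel0 l')
      hπ1 := fun l => (hπ l).1
      hπ2 := fun l l' h => (hπ l).2.1 l' h
      hπ3 := fun l m h => (hπ l).2.2 m h
}
  have hco : Compat y co P Q :=
    { inv := hQP
      γ1 := fun l => rfl
      γ := fun l m => rfl
      α := fun l m => by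
        change (P * A) l m = _
        rw [Matrix.mul_apply]
      N1 := fun j => rfl
      D1 := fun j => rfl
      Φ1 := fun j => rfl
      bc1 := fun j => rfl
      ba1 := fun j m => rfl
      tru := fun i => by
        change Transcendental k ((u i : F i) : K)
        have h1 := (hG i).tr
        intro h2
        apply h1
        exact (isAlgebraic_algebraMap_iff (algebraMap (F i) K).injective).1 h2
      trf := fun i => by
        have h1 : y.u (Sum.inl i) ^ y.m (Sum.inl i) * y.G (Sum.inl i) =
            (g i : K) - algebraMap k K (c i) := (hGK i).fac.symm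
        rw [h1]
        intro h2
        apply hgtr i
        have h3 : IsAlgebraic k ((g i : K)) := by
          have := h2.add (isAlgebraic_algebraMap (R := k) (A := K) (c i))
          rwa [sub_add_cancel] at this
        exact (isAlgebraic_algebraMap_iff (algebraMap (F i) K).injective).1 h3 }
  obtain ⟨q, hq⟩ := exists_kum (y.toL hV hroot).toG F (fun i => Sum.inl i) u w Φ
    (fun i => (hG i).ger) (fun i => rfl) (fun i => rfl) ζ mζ hζ hmζ hk
  refine LG.uniformizable_of_gdat (q.kum hV) ?_ hV (fun j : Fin n => Sum.inr j) ?_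
    (q.kum_alg hV _ (LDat.algCond_toG _ (algCond_of hV y co hco hroot)))
  · change IntermediateField.adjoin k (Set.range (Sum.elim (fun i => (u i : K)) uz) ∪
      Set.range (Sum.elim (fun i => (w i : K)) (fun _ => 0)) ∪
      Set.range (Sum.elim y.xx q.zf)) = ⊤
    set L := IntermediateField.adjoin k (Set.range (Sum.elim (fun i => (u i : K)) uz) ∪
      Set.range (Sum.elim (fun i => (w i : K)) (fun _ => 0)) ∪
      Set.range (Sum.elim y.xx q.zf)) with hL
    have hu : ∀ i, (u i : K) ∈ L := fun i =>
      IntermediateField.subset_adjoin _ _ (Or.inl (Or.inl ⟨Sum.inl i, rfl⟩))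
    have hw : ∀ i, (w i : K) ∈ L := fun i =>
      IntermediateField.subset_adjoin _ _ (Or.inl (Or.inr ⟨Sum.inl i, rfl⟩))
    have huz : ∀ j, uz j ∈ L := fun j =>
      IntermediateField.subset_adjoin _ _ (Or.inl (Or.inl ⟨Sum.inr j, rfl⟩))
    have hzf : ∀ l, q.zf l ∈ L := fun l =>
      IntermediateField.subset_adjoin _ _ (Or.inr ⟨Sum.inr l, rfl⟩)
    rw [eq_top_iff, ← hgen]
    refine sup_le (sup_le ?_ (iSup_le fun i => ?_)) ?_
    · rw [IntermediateField.adjoin_le_iff]
      rintro _ ⟨j, rfl⟩
      rw [hz1 j]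
      exact zpow_mem (huz j) _
    · intro y hy
      have h1 : (⟨y, hy⟩ : F i) ∈ IntermediateField.adjoin k {u i, w i} := by
        rw [(hG i).gen]; trivial
      have h2 : y ∈ (IntermediateField.adjoin k {u i, w i}).map (F i).val :=
        ⟨⟨y, hy⟩, h1, rfl⟩
      rw [IntermediateField.adjoin_map] at h2
      have h3 : IntermediateField.adjoin k ((F i).val '' {u i, w i}) ≤ L := by
        rw [IntermediateField.adjoin_le_iff]
        rintro _ ⟨q, hq, rfl⟩
        rcases hq with rfl | rfl
        · exact hu i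
        · exact hw i
      exact h3 h2
    · rw [IntermediateField.adjoin_le_iff]
      rintro _ ⟨l, rfl⟩
      rw [← hq, ← q.zf_pow l]
      exact zpow_mem (hzf l) _
  · change AlgebraicIndependent k uz
    refine indep_of_trdeg uz (algebraic_of_adjoin uz z ?_ F g hgz halgF hZ hgen) hn
    intro j
    rw [hz1 j]
    exact zpow_mem (IntermediateField.subset_adjoin _ _ ⟨j, rfl⟩ :
      uz j ∈ IntermediateField.adjoin k (Set.range uz)) _

theorem add_lu {n N L : ℕ} (z : Fin n → K) (F : Fin N → IntermediateField k K) (g : ∀ i, F i)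
    (hfg : ∀ i, Algebra.EssFiniteType k (F i)) (htr : ∀ i, Algebra.trdeg k (F i) = 1)
    (htame : ∀ i, Tame k p (g i))
    (hadd : ∀ i, (g i : K) ∈ Submodule.span k (insert 1 {y | ∃ j, ∃ s : ℕ, y = z j ^ p ^ s}))
    (ζ : Fin L → K) (mζ : Fin L → ℕ) (hζ : ∀ l, ζ l ≠ 0) (hmζ : ∀ l, (mζ l : k) ≠ 0)
    (hk : ∀ l, ∃ h : ∀ i, F i, ζ l ^ mζ l = ∏ i, (h i : K))
    (hgen : IntermediateField.adjoin k (Set.range z) ⊔ (⨆ i, F i) ⊔
      IntermediateField.adjoin k (Set.range ζ) = ⊤)
    (hn : Algebra.trdeg k K = n) (V : ValuationSubring K)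
    (hV : ∀ c : k, algebraMap k K c ∈ V) : Uniformizable k V := by
  have hp0 : p ≠ 0 := (Fact.out : p.Prime).ne_zero
  refine add_lu_loc p z F g V hV (fun i => ?_) (fun i halg => ?_) (fun i => ?_) hadd ζ mζ hζ hmζ
    hk hgen hn
  · have := (htame i).sep
    infer_instance
  · have h1 : g i ∈ integralClosure k (F i) := by
      rw [mem_integralClosure_iff]
      exact halg.isIntegral
    obtain ⟨c0, hc0⟩ : ∃ c0 : k, algebraMap k (F i) c0 = g i := by
      have := IsAlgClosed.algebraMap_bijective_of_isIntegral (k := k) (K := integralClosure k (F i))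
      obtain ⟨c0, hc0⟩ := this.2 ⟨g i, h1⟩
      exact ⟨c0, congrArg Subtype.val hc0⟩
    have h2 := (htame i).ram ⊤ (fun _ => ValuationSubring.mem_top _) c0 0
      (by rw [hc0, sub_self, map_zero, zero_pow hp0])
    rw [hc0, sub_self, map_zero] at h2
    exact zero_ne_one h2
  · exact exists_tgerm (O := trc V (F i)) p (hfg i) (htr i) (fun c => hV c) (g i) (htame i)

end main

end LT
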