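import Pool.Agent.helper90.LT.KGerm

namespace LT

open LU

universe u

section coef

variable {k K : Type u} [Field k] [Field K] [Algebra k K]

/-- Coefficients of the change of basis between the Frobenius powers of the coordinates and the
adapted basis. -/
structure Coef (k : Type u) {K : Type u} [Field k] [Field K] [Algebra k K] (p : ℕ) {M n : ℕ}
    (x : Fin M → K) (z : Fin n → K) (S : ℕ) where
  S1 : Fin n × Fin (S + 1) → k
  SM : Fin n × Fin (S + 1) → Fin M → k
  T1 : Fin M → k
  TM : Fin M → Fin n × Fin (S + 1) → k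
  hS : ∀ l, zs p z S l = comb x (S1 l) (SM l)
  hT : ∀ m, x m = algebraMap k K (T1 m) + ∑ l, algebraMap k K (TM m l) * zs p z S l

variable {p M n : ℕ} {x : Fin M → K} {z : Fin n → K} {S : ℕ} (co : Coef k p x z S)

/-- lower and upper index -/
def lo (l : Fin n × Fin S) : Fin n × Fin (S + 1) := (l.1, l.2.castSucc)

def up (l : Fin n × Fin S) : Fin n × Fin (S + 1) := (l.1, l.2.succ)

lemma Coef.ident {V : ValuationSubring K} (h : Adapted k V x) (m : Fin M) :
    (co.T1 m + ∑ l, co.TM m l * co.S1 l = 0) ∧
      ∀ m', ∑ l, co.TM m l * co.SM l m' = if m = m' then 1 else 0 := by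
  have h1 : comb x (co.T1 m + ∑ l, co.TM m l * co.S1 l)
      (fun m' => (∑ l, co.TM m l * co.SM l m') - if m = m' then 1 else 0) = 0 := by
    have h2 := co.hT m
    simp only [co.hS] at h2
    unfold comb at h2 ⊢
    simp only [map_add, map_sum, map_mul, map_sub, sub_mul, Finset.sum_sub_distrib]
    have h3 : ∑ m', (algebraMap k K (if m = m' then 1 else 0)) * x m' = x m := by
      rw [Finset.sum_eq_single m]
      · simp
      · intro b _ hb
        rw [if_neg (Ne.symm hb)]
        simp
      · simp
    rw [h3]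
    have h4 : ∑ m', (∑ l, algebraMap k K (co.TM m l) * algebraMap k K (co.SM l m')) * x m' =
        ∑ l, algebraMap k K (co.TM m l) * ∑ m', algebraMap k K (co.SM l m') * x m' := by
      simp only [Finset.sum_mul, Finset.mul_sum]
      rw [Finset.sum_comm]
      refine Finset.sum_congr rfl fun l _ => Finset.sum_congr rfl fun m' _ => ?_
      ring
    rw [h4]
    simp only [mul_add, Finset.sum_add_distrib] at h2
    rw [sub_eq_add_neg]
    linear_combination -h2
  obtain ⟨h2, h3⟩ := h.indep h1
  refine ⟨h2, fun m' => ?_⟩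
  have := congrFun h3 m'
  simpa [sub_eq_zero] using this

/-- recovery of the adapted basis in a specialization -/
lemma Coef.recover {V : ValuationSubring K} (h : Adapted k V x) {E : Type*} [Field E]
    (κ : k →+* E) (xE : Fin M → E) (m : Fin M) :
    xE m = κ (co.T1 m) + ∑ l, κ (co.TM m l) * cmb κ xE (co.S1 l) (co.SM l) := by
  obtain ⟨h1, h2⟩ := co.ident h m
  unfold cmb
  simp only [mul_add, Finset.sum_add_distrib, Finset.mul_sum]
  rw [Finset.sum_comm]
  have e1 : ∀ m', ∑ l, κ (co.TM m l) * (κ (co.SM l m') * xE m') =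
      κ (if m = m' then 1 else 0) * xE m' := by
    intro m'
    rw [← h2 m', map_sum, Finset.sum_mul]
    refine Finset.sum_congr rfl fun l _ => ?_
    rw [map_mul]; ring
  simp only [e1]
  have e2 : ∑ m', κ (if m = m' then 1 else 0) * xE m' = xE m := by
    rw [Finset.sum_eq_single m]
    · simp
    · intro b _ hb
      rw [if_neg (Ne.symm hb)]
      simp
    · simp
  rw [e2]
  have e3 : κ (co.T1 m) + ∑ l, κ (co.TM m l) * κ (co.S1 l) = 0 := by
    rw [← map_zero κ, ← h1, map_add, map_sum]
    congr 1
    refine Finset.sum_congr rfl fun l _ => ?_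
    rw [map_mul]
  rw [← add_assoc, e3, zero_add]

end coef

section lin

variable {k E : Type*} [Field k] [Field E] (κ : k →+* E) {R : Type*} [Fintype R] [DecidableEq R]
  {M : ℕ}

omit [DecidableEq R] in
lemma lin_comb (P : R → k) (y : Fin M → E) (c : R → k) (a : R → Fin M → k) :
    cmb κ y (∑ l, P l * c l) (fun m => ∑ l, P l * a l m) = ∑ l, κ (P l) * cmb κ y (c l) (a l) := by
  unfold cmb
  simp only [mul_add, Finset.sum_add_distrib, map_sum, map_mul, Finset.mul_sum, Finset.sum_mul]
  congr 1
  rw [Finset.sum_comm]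
  refine Finset.sum_congr rfl fun l _ => Finset.sum_congr rfl fun m _ => ?_
  ring

/-- undoing the row operations -/
lemma undo {P Q : Matrix R R k} (hQP : Q * P = 1) (X : R → E)
    (h : ∀ l, ∑ l', κ (P l l') * X l' = 0) (l : R) : X l = 0 := by
  have h1 : ∑ l', κ (Q l l') * ∑ l'', κ (P l' l'') * X l'' = 0 := by
    simp only [h, mul_zero, Finset.sum_const_zero]
  simp only [Finset.mul_sum] at h1
  rw [Finset.sum_comm] at h1
  have h2 : ∀ l'', ∑ l', κ (Q l l') * (κ (P l' l'') * X l'') = κ ((Q * P) l l'') * X l'' := by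
    intro l''
    rw [Matrix.mul_apply, map_sum, Finset.sum_mul]
    refine Finset.sum_congr rfl fun l' _ => ?_
    rw [map_mul]; ring
  simp only [h2, hQP] at h1
  rw [Finset.sum_eq_single l] at h1
  · simpa using h1
  · intro b _ hb
    rw [Matrix.one_apply_ne (Ne.symm hb)]
    simp
  · simp

end lin

end LT
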