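import Pool.Agent.helper90.LT.AlgC

namespace LT

open LU

universe u

variable {k K : Type u} [Field k] [Field K] [Algebra k K] {V : ValuationSubring K}
  {p : ℕ} [Fact p.Prime] [CharP k p] {N n S M : ℕ}

/-- the compatibility of a reduced system with a change of basis -/
structure Compat (y : Sys (k := k) V p (Fin N ⊕ Fin n) (Fin n × Fin S) M) {z : Fin n → K}
    (co : Coef k p y.x z S) (P Q : Matrix (Fin n × Fin S) (Fin n × Fin S) k) : Prop where
  inv : Q * P = 1
  γ1 : ∀ l, y.γ1 l = ∑ l', P l l' * (co.S1 (lo l') ^ p - co.S1 (up l'))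
  γ : ∀ l m, y.γ l m = ∑ l', P l l' * co.SM (lo l') m ^ p
  α : ∀ l m, y.α l m = ∑ l', P l l' * co.SM (up l') m
  N1 : ∀ j, y.N (Sum.inr j) = 1
  D1 : ∀ j, y.D (Sum.inr j) = 1
  Φ1 : ∀ j, y.Φ (Sum.inr j) = MvPolynomial.X 1
  bc1 : ∀ j, y.bc (Sum.inr j) = co.S1 (j, 0)
  ba1 : ∀ j m, y.ba (Sum.inr j) m = co.SM (j, 0) m
  tru : ∀ i, Transcendental k (y.u (Sum.inl i))
  trf : ∀ i, Transcendental k (y.u (Sum.inl i) ^ y.m (Sum.inl i) * y.G (Sum.inl i))

theorem algCond_of (hV : ∀ c : k, algebraMap k K c ∈ V)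
    (y : Sys (k := k) V p (Fin N ⊕ Fin n) (Fin n × Fin S) M) {z : Fin n → K}
    (co : Coef k p y.x z S) {P Q : Matrix (Fin n × Fin S) (Fin n × Fin S) k}
    (hco : Compat y co P Q) (hroot : ∀ c : k, ∃ d, d ^ p = c) :
    (y.toL hV hroot).AlgCond (fun j : Fin n => Sum.inr j) := by
  intro Sr E _ _ C0 ev φ cS wS hC hcS hwS hker hunit hΦ hrow
  have hp0 : p ≠ 0 := (Fact.out : p.Prime).ne_zero
  set κ : k →+* E := φ.comp C0 with hκ
  have hCE : CharP E p := charP_of_injective_ringHom κ.injective p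
  have hEE : ExpChar E p := ExpChar.prime Fact.out
  set θ : MvPolynomial (Fin n) k →+* E :=
    MvPolynomial.eval₂Hom κ (fun j => φ (cS (Sum.inl (Sum.inr j)))) with hθ
  have hθC : θ.comp MvPolynomial.C = κ := by
    ext c
    simp [hθ]
  have hc0 : ∀ s, ev s ≠ 0 → φ s ≠ 0 := fun s h h' => h (hker s h')
  let uE : Fin N ⊕ Fin n → E := fun i => φ (cS (Sum.inl i))
  let xxE : Fin M → E := fun m => φ (cS (Sum.inr m))
  have huE : ∀ i, uE i ≠ 0 := by
    intro i
    apply hc0
    rw [hcS]
    exact y.hu0 i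
  have hxxE : ∀ m, xxE m ≠ 0 := by
    intro m
    apply hc0
    rw [hcS]
    exact y.xx_ne m
  have helim : (fun s => φ (cS s)) = Sum.elim uE xxE := by
    funext s
    rcases s with i | m <;> rfl
  let GE : Fin N ⊕ Fin n → E := fun i =>
    φ (MvPolynomial.eval₂ C0 ![cS (Sum.inl i), wS i] (y.N i)) /
        φ (MvPolynomial.eval₂ C0 ![cS (Sum.inl i), wS i] (y.D i))
  let xE : Fin M → E := fun m => xxE m ^ y.sgn m
  -- the linear rows
  have hlinE : ∀ i, uE i ^ y.m i * GE i = cmb κ xE (y.bc i) (y.ba i) := by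
    intro i
    have h1 := y.row_inl (R := Fin n × Fin S) (p := p) κ huE hxxE GE i
    have h2 := hrow (Sum.inl i)
    rw [helim] at h2
    have h3 := h1.symm.trans h2
    rw [sub_eq_zero] at h3
    rw [h3, ← mul_assoc, mul_inv_cancel₀ (zpow_ne_zero _ (huE i)), one_mul]
  -- the additive rows
  have hrelE : ∀ l, cmb κ (fun m => xE m ^ p) (y.γ1 l) (y.γ l) = cmb κ xE 0 (y.α l) := by
    intro l
    have h1 := y.row_inr (p := p) κ huE hxxE GE l
    have h2 := hrow (Sum.inr l)
    rw [helim] at h2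
    have h3 := h1.symm.trans h2
    have h4 : (xxE (y.π l) ^ y.sgn (y.π l))⁻¹ ≠ 0 := inv_ne_zero (zpow_ne_zero _ (hxxE _))
    have h5 := (mul_eq_zero.1 h3).resolve_left h4
    rwa [sub_eq_zero] at h5
  have hrel0 : ∀ l : Fin n × Fin S, cmb κ (fun m => xE m ^ p)
      (co.S1 (lo l) ^ p - co.S1 (up l)) (fun m => co.SM (lo l) m ^ p) =
      cmb κ xE 0 (co.SM (up l)) := by
    intro l
    rw [← sub_eq_zero]
    refine undo κ hco.inv (fun l => cmb κ (fun m => xE m ^ p)
      (co.S1 (lo l) ^ p - co.S1 (up l)) (fun m => co.SM (lo l) m ^ p) -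
      cmb κ xE 0 (co.SM (up l))) ?_ l
    intro l'
    simp only [mul_sub, Finset.sum_sub_distrib]
    rw [← lin_comb, ← lin_comb, sub_eq_zero]
    have h1 := hrelE l'
    have e1 : y.γ l' = fun m => ∑ l, P l' l * co.SM (lo l) m ^ p := funext (hco.γ l')
    have e2 : y.α l' = fun m => ∑ l, P l' l * co.SM (up l) m := funext (hco.α l')
    rw [hco.γ1, e1, e2] at h1
    rw [h1]
    simp
  let zE : Fin n × Fin (S + 1) → E := fun l => cmb κ xE (co.S1 l) (co.SM l)
  have hz : ∀ l : Fin n × Fin S, zE (up l) = zE (lo l) ^ p := by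
    intro l
    have h1 := hrel0 l
    have h2 : zE (lo l) ^ p = cmb κ (fun m => xE m ^ p) (co.S1 (lo l) ^ p)
        (fun m => co.SM (lo l) m ^ p) := by
      change (κ _ + _) ^ p = _
      unfold cmb
      rw [add_pow_expChar, ← map_pow, sum_pow_char]
      congr 1
      refine Finset.sum_congr rfl fun m _ => ?_
      rw [mul_pow, ← map_pow]
    rw [h2]
    change cmb κ xE (co.S1 (up l)) (co.SM (up l)) = _
    unfold cmb at h1 ⊢
    rw [map_sub, map_zero] at h1
    linear_combination -h1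
  -- the base
  have halgu : ∀ j, AlgOver θ (uE (Sum.inr j)) := by
    intro j
    have : θ (MvPolynomial.X j) = uE (Sum.inr j) := by simp [hθ, uE]
    rw [← this]
    exact AlgOver.base _
  have halgk : ∀ c : k, AlgOver θ (κ c) := by
    intro c
    have : θ (MvPolynomial.C c) = κ c := by simp [hθ]
    rw [← this]
    exact AlgOver.base _
  have halgz0 : ∀ j, AlgOver θ (zE (j, 0)) := by
    intro j
    have h1 := hlinE (Sum.inr j)
    have h2 : GE (Sum.inr j) = 1 := by
      simp only [GE, hco.N1, hco.D1, MvPolynomial.eval₂_one, map_one, div_one]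
    have e2 : y.ba (Sum.inr j) = co.SM (j, 0) := funext (hco.ba1 j)
    rw [h2, mul_one, hco.bc1, e2] at h1
    change AlgOver θ (cmb κ xE (co.S1 (j, 0)) (co.SM (j, 0)))
    rw [← h1]
    exact (halgu j).zpow _
  have halgz : ∀ j (s : Fin (S + 1)), AlgOver θ (zE (j, s)) := by
    intro j s
    induction s using Fin.induction with
    | zero => exact halgz0 j
    | succ s ih =>
      have := hz (j, s)
      change zE (j, s.succ) = zE (j, s.castSucc) ^ p at this
      rw [this]
      exact ih.pow p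
  have halgx : ∀ m, AlgOver θ (xE m) := by
    intro m
    rw [co.recover y.adapt κ xE m]
    exact (halgk _).add (AlgOver.sum _ fun l _ => (halgk _).mul (halgz l.1 l.2))
  have halgxx : ∀ m, AlgOver θ (xxE m) := by
    intro m
    have : xxE m = xE m ^ y.sgn m := by
      change _ = (xxE m ^ y.sgn m) ^ y.sgn m
      rw [← zpow_mul, y.sgn_sq, zpow_one]
    rw [this]
    exact (halgx m).zpow _
  have halgf : ∀ i, AlgOver θ (uE i ^ y.m i * GE i) := by
    intro i
    rw [hlinE]
    exact (halgk _).add (AlgOver.sum _ fun l _ => (halgk _).mul (halgx l))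
  -- the germs
  have hevp : ∀ i (q : MvPolynomial (Fin 2) k),
      ev (MvPolynomial.eval₂ C0 ![cS (Sum.inl i), wS i] q) =
        MvPolynomial.aeval ![y.u i, y.w i] q := by
    intro i q
    have : ev.comp (MvPolynomial.eval₂Hom C0 ![cS (Sum.inl i), wS i]) =
        (MvPolynomial.aeval ![y.u i, y.w i] : MvPolynomial (Fin 2) k →ₐ[k] K).toRingHom := by
      apply MvPolynomial.ringHom_ext
      · intro c
        simp [hC]
      · intro s
        fin_cases s
        · have : ev (cS (Sum.inl i)) = y.u i := hcS (Sum.inl i)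
          simpa using this
        · have : ev (wS i) = y.w i := hwS i
          simpa using this
    exact congrArg (fun f => f q) this
  have hφp : ∀ i (q : MvPolynomial (Fin 2) k),
      φ (MvPolynomial.eval₂ C0 ![cS (Sum.inl i), wS i] q) =
        MvPolynomial.eval₂Hom κ ![uE i, φ (wS i)] q := by
    intro i q
    have : φ.comp (MvPolynomial.eval₂Hom C0 ![cS (Sum.inl i), wS i]) =
        MvPolynomial.eval₂Hom κ ![uE i, φ (wS i)] := by
      apply MvPolynomial.ringHom_ext
      · intro c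
        simp [hκ]
      · intro s
        fin_cases s <;> simp [uE]
    exact congrArg (fun f => f q) this
  -- algebraicity over one parameter
  have hwb : ∀ i, AlgOver (MvPolynomial.eval₂Hom κ (fun _ : Fin 1 => uE i)) (φ (wS i)) := by
    intro i
    refine AlgOver.of_rel (MvPolynomial.X 0) (MvPolynomial.eval₂Hom κ ![uE i, φ (wS i)])
      (by intro c; simp) (by simp) (by simp) (y.Φ i) ?_ ?_
    · rw [← hφp]
      exact hΦ i
    · rw [← hφp]
      apply hc0
      rw [hevp]
      exact y.hΦ0 i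
  have hub : ∀ i, AlgOver (MvPolynomial.eval₂Hom κ (fun _ : Fin 1 => uE i)) (uE i) := by
    intro i
    have : MvPolynomial.eval₂Hom κ (fun _ : Fin 1 => uE i) (MvPolynomial.X 0) = uE i := by simp
    conv_rhs => rw [← this]
    exact AlgOver.base _
  have hqb : ∀ i q, AlgOver (MvPolynomial.eval₂Hom κ (fun _ : Fin 1 => uE i))
      (MvPolynomial.eval₂Hom κ ![uE i, φ (wS i)] q) := by
    intro i q
    exact AlgOver.eval2 (hub i) (hwb i) _ (by intro c; simp) (by simp) (by simp) q
  have hfb : ∀ i, AlgOver (MvPolynomial.eval₂Hom κ (fun _ : Fin 1 => uE i))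
      (uE i ^ y.m i * GE i) := by
    intro i
    refine ((hub i).zpow _).mul ?_
    simp only [GE, div_eq_mul_inv, hφp]
    exact (hqb i _).mul (hqb i _).inv
  -- transcendence in `E`
  have htrans : ∀ s : Sr, Transcendental k (ev s) → ∀ q : Polynomial k, q ≠ 0 →
      Polynomial.eval₂ (θ.comp MvPolynomial.C) (φ s) q ≠ 0 := by
    intro s hs q hq0 hq
    rw [hθC, hκ, ← Polynomial.hom_eval₂] at hq
    have h1 := hker _ hq
    rw [Polynomial.hom_eval₂] at h1
    apply hs
    refine ⟨q, hq0, ?_⟩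
    rw [Polynomial.aeval_def, ← h1]
    congr 1
    ext c
    simp [hC]
  have hubase : ∀ i : Fin N, AlgOver θ (uE (Sum.inl i)) := by
    intro i
    -- an element of the ring with value `f` or its inverse
    have hN := hunit (Sum.inl i) (y.N (Sum.inl i)) (y.hN0 _) (y.hNV _)
    have hD := hunit (Sum.inl i) (y.D (Sum.inl i)) (y.hD0 _) (y.hDV _)
    obtain ⟨N', hN'⟩ := hN.exists_right_inv
    obtain ⟨D', hD'⟩ := hD.exists_right_inv
    have hN'ev : ev N' = (MvPolynomial.aeval ![y.u (Sum.inl i), y.w (Sum.inl i)]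
        (y.N (Sum.inl i)))⁻¹ := by
      apply eq_inv_of_mul_eq_one_right
      rw [← hevp, ← map_mul, hN', map_one]
    have hD'ev : ev D' = (MvPolynomial.aeval ![y.u (Sum.inl i), y.w (Sum.inl i)]
        (y.D (Sum.inl i)))⁻¹ := by
      apply eq_inv_of_mul_eq_one_right
      rw [← hevp, ← map_mul, hD', map_one]
    have hN'φ : φ N' = (φ (MvPolynomial.eval₂ C0 ![cS (Sum.inl (Sum.inl i)), wS (Sum.inl i)]
        (y.N (Sum.inl i))))⁻¹ := by
      apply eq_inv_of_mul_eq_one_right
      rw [← map_mul, hN', map_one]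
    have hD'φ : φ D' = (φ (MvPolynomial.eval₂ C0 ![cS (Sum.inl (Sum.inl i)), wS (Sum.inl i)]
        (y.D (Sum.inl i))))⁻¹ := by
      apply eq_inv_of_mul_eq_one_right
      rw [← map_mul, hD', map_one]
    have hev_u : ev (cS (Sum.inl (Sum.inl i))) = y.u (Sum.inl i) := hcS _
    obtain ⟨r, hr | hr⟩ := Int.eq_nat_or_neg (y.m (Sum.inl i))
    · let s : Sr := cS (Sum.inl (Sum.inl i)) ^ r *
        (MvPolynomial.eval₂ C0 ![cS (Sum.inl (Sum.inl i)), wS (Sum.inl i)] (y.N (Sum.inl i)) * D')
      have h1 : ev s = y.u (Sum.inl i) ^ y.m (Sum.inl i) * y.G (Sum.inl i) := by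
        simp only [s, map_mul, map_pow, hev_u, hevp, hD'ev, hr, zpow_natCast, Sys.G,
          div_eq_mul_inv]
      have h2 : φ s = uE (Sum.inl i) ^ y.m (Sum.inl i) * GE (Sum.inl i) := by
        simp only [s, map_mul, map_pow, hD'φ, hr, zpow_natCast, GE, div_eq_mul_inv, uE]
      refine alg_exchange θ (a := φ s) (htrans s (by rw [h1]; exact hco.trf i)) ?_ ?_
      · rw [h2]; exact halgf _
      · rw [hθC, h2]; exact hfb _
    · let s : Sr := cS (Sum.inl (Sum.inl i)) ^ r *
        (MvPolynomial.eval₂ C0 ![cS (Sum.inl (Sum.inl i)), wS (Sum.inl i)] (y.D (Sum.inl i)) * N')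
      have h1 : ev s = (y.u (Sum.inl i) ^ y.m (Sum.inl i) * y.G (Sum.inl i))⁻¹ := by
        simp only [s, map_mul, map_pow, hev_u, hevp, hN'ev, hr, zpow_neg, zpow_natCast, Sys.G,
          mul_inv, inv_inv, div_eq_mul_inv]
        ring
      have h2 : φ s = (uE (Sum.inl i) ^ y.m (Sum.inl i) * GE (Sum.inl i))⁻¹ := by
        simp only [s, map_mul, map_pow, hN'φ, hr, zpow_neg, zpow_natCast, GE, mul_inv, inv_inv,
          div_eq_mul_inv, uE]
        ring
      have h3 : Transcendental k (ev s) := by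
        rw [h1]
        intro h
        apply hco.trf i
        have := h.inv
        rwa [inv_inv] at this
      refine alg_exchange θ (a := φ s) (htrans s h3) ?_ ?_
      · rw [h2]; exact (halgf _).inv
      · rw [hθC, h2]; exact (hfb _).inv
  refine ⟨?_, ?_⟩
  · rintro ((i | j) | m)
    · exact hubase i
    · exact halgu j
    · exact halgxx m
  · rintro (i | j)
    · refine alg_trans θ (b := uE (Sum.inl i)) (htrans _ ?_) (hubase i) ?_
      · rw [hcS]
        exact hco.tru i
      · rw [hθC]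
        exact hwb _
    · have h1 := hΦ (Sum.inr j)
      change φ (MvPolynomial.eval₂ C0 _ (y.Φ (Sum.inr j))) = 0 at h1
      rw [hco.Φ1, MvPolynomial.eval₂_X] at h1
      change φ (wS (Sum.inr j)) = 0 at h1
      rw [h1]
      simpa using AlgOver.base (θ := θ) 0

end LT
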