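import Pool.Agent.helper90.LG.GKum

open IsLocalRing

namespace LT

open LU

universe u

/-- Data of a logarithmically smooth system adapted to a valuation: germs of curves
`(u i, w i)`, further frame elements `x`, and relations `j`, each a sum over `t` of a constant times a
Laurent monomial in the frame times a unit at one of the germs. -/
structure LDat {k K : Type u} [Field k] [Field K] [Algebra k K] (V : ValuationSubring K)
    (ι X J T : Type) [Fintype ι] [DecidableEq ι] [Fintype X] [DecidableEq X] [Fintype J]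
    [Fintype T] where
  u : ι → K
  w : ι → K
  x : X → K
  Φ : ι → MvPolynomial (Fin 2) k
  N : ι → MvPolynomial (Fin 2) k
  D : ι → MvPolynomial (Fin 2) k
  a : J → T → k
  e : J → T → (ι ⊕ X → ℤ)
  g : J → T → Option ι
  s : J → ι ⊕ X
  rk : J → ℕ
  hu0 : ∀ i, u i ≠ 0
  huV : ∀ i, u i ∈ V
  hwV : ∀ i, w i ∈ V
  hx0 : ∀ i, x i ≠ 0
  hxV : ∀ i, x i ∈ V
  hΦ : ∀ i, MvPolynomial.aeval ![u i, w i] (Φ i) = 0
  hΦ0 : ∀ i, MvPolynomial.aeval ![u i, w i] (MvPolynomial.pderiv 1 (Φ i)) ≠ 0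
  hΦV : ∀ i, (MvPolynomial.aeval ![u i, w i] (MvPolynomial.pderiv 1 (Φ i)))⁻¹ ∈ V
  hD0 : ∀ i, MvPolynomial.aeval ![u i, w i] (D i) ≠ 0
  hDV : ∀ i, (MvPolynomial.aeval ![u i, w i] (D i))⁻¹ ∈ V
  hmon : ∀ j t, a j t ≠ 0 → mon (Sum.elim u x) (e j t) ∈ V
  hrow : ∀ j, ∑ t, algebraMap k K (a j t) * (mon (Sum.elim u x) (e j t) *
    (g j t).elim 1 (fun i => MvPolynomial.aeval ![u i, w i] (N i) /
      MvPolynomial.aeval ![u i, w i] (D i))) = 0
  hd1 : ∀ j, (∑ t, (e j t (s j) : K) * (algebraMap k K (a j t) * (mon (Sum.elim u x) (e j t) *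
    (g j t).elim 1 (fun i => MvPolynomial.aeval ![u i, w i] (N i) /
      MvPolynomial.aeval ![u i, w i] (D i)))) ≠ 0) ∧
    (∑ t, (e j t (s j) : K) * (algebraMap k K (a j t) * (mon (Sum.elim u x) (e j t) *
    (g j t).elim 1 (fun i => MvPolynomial.aeval ![u i, w i] (N i) /
      MvPolynomial.aeval ![u i, w i] (D i)))))⁻¹ ∈ V
  hd0 : ∀ j j', j ≠ j' → rk j' ≤ rk j →
    ∑ t, (e j' t (s j) : K) * (algebraMap k K (a j' t) * (mon (Sum.elim u x) (e j' t) *
    (g j' t).elim 1 (fun i => MvPolynomial.aeval ![u i, w i] (N i) /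
      MvPolynomial.aeval ![u i, w i] (D i)))) = 0
  hdir : ∀ j i, s j = Sum.inl i → (u i)⁻¹ ∉ V ∨ (N i = 1 ∧ D i = 1)

namespace LDat

variable {k K : Type u} [Field k] [Field K] [Algebra k K] {V : ValuationSubring K}
  {ι X J T : Type} [Fintype ι] [DecidableEq ι] [Fintype X] [DecidableEq X] [Fintype J]
  [Fintype T] (d : LDat (k := k) V ι X J T)

/-- the frame -/
def c : ι ⊕ X → K := Sum.elim d.u d.x

lemma prod_opt {E : Type*} [Field E] (o : Option ι) (f : ι → E) :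
    ∏ h, f h ^ (if o = some h then 1 else 0) = o.elim 1 f := by
  rcases o with _ | i
  · simp
  · rw [Finset.prod_eq_single i]
    · simp
    · intro b _ hb
      rw [if_neg (by simpa using Ne.symm hb), pow_zero]
    · simp

/-- the same data in the general form -/
noncomputable def toG : LG.GDat (k := k) V ι X J T ι where
  u := d.u
  w := d.w
  x := d.x
  Φ := d.Φ
  gi := id
  N := d.N
  D := d.D
  a := d.a
  e := d.e
  g := fun j t h => if d.g j t = some h then 1 else 0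
  s := d.s
  rk := d.rk
  hu0 := d.hu0
  huV := d.huV
  hwV := d.hwV
  hx0 := d.hx0
  hxV := d.hxV
  hΦ := d.hΦ
  hΦ0 := d.hΦ0
  hΦV := d.hΦV
  hD0 := d.hD0
  hDV := d.hDV
  hmon := d.hmon
  hrow := by
    intro j
    simp only [id]
    simp only [prod_opt _ (fun h => MvPolynomial.aeval ![d.u h, d.w h] (d.N h) /
      MvPolynomial.aeval ![d.u h, d.w h] (d.D h))]
    exact d.hrow j
  hd1 := by
    intro j
    simp only [id]
    simp only [prod_opt _ (fun h => MvPolynomial.aeval ![d.u h, d.w h] (d.N h) /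
      MvPolynomial.aeval ![d.u h, d.w h] (d.D h))]
    exact d.hd1 j
  hd0 := by
    intro j j' h1 h2
    simp only [id]
    simp only [prod_opt _ (fun h => MvPolynomial.aeval ![d.u h, d.w h] (d.N h) /
      MvPolynomial.aeval ![d.u h, d.w h] (d.D h))]
    exact d.hd0 j j' h1 h2
  hdir := fun j j' t h _ _ _ hs => d.hdir j h hs

/-- Algebraicity of the frame and of the germs over the chosen base, in every specialization in
which the relations hold. -/
def AlgCond {n : ℕ} (bs : Fin n → ι) : Prop :=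
  ∀ (S E : Type u) [CommRing S] [Field E] (C0 : k →+* S) (ev : S →+* K) (φ : S →+* E)
    (cS : ι ⊕ X → S) (wS : ι → S),
    (∀ c, ev (C0 c) = algebraMap k K c) → (∀ y, ev (cS y) = d.c y) → (∀ i, ev (wS i) = d.w i) →
    (∀ s, φ s = 0 → ev s = 0) →
    (∀ i q, MvPolynomial.aeval ![d.u i, d.w i] q ≠ 0 →
      (MvPolynomial.aeval ![d.u i, d.w i] q)⁻¹ ∈ V →
      IsUnit (MvPolynomial.eval₂ C0 ![cS (Sum.inl i), wS i] q)) →
    (∀ i, φ (MvPolynomial.eval₂ C0 ![cS (Sum.inl i), wS i] (d.Φ i)) = 0) →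
    (∀ j, ∑ t, φ (C0 (d.a j t)) * (mon (fun y => φ (cS y)) (d.e j t) *
      (d.g j t).elim 1 (fun i => φ (MvPolynomial.eval₂ C0 ![cS (Sum.inl i), wS i] (d.N i)) /
        φ (MvPolynomial.eval₂ C0 ![cS (Sum.inl i), wS i] (d.D i)))) = 0) →
    (∀ y, AlgOver (MvPolynomial.eval₂Hom (φ.comp C0) (fun j => φ (cS (Sum.inl (bs j)))))
      (φ (cS y))) ∧
    (∀ i, AlgOver (MvPolynomial.eval₂Hom (φ.comp C0) (fun j => φ (cS (Sum.inl (bs j)))))
      (φ (wS i)))

lemma algCond_toG {n : ℕ} {bs : Fin n → ι} (h : d.AlgCond bs) : d.toG.AlgCond bs := by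
  intro S E _ _ C0 ev φ cS wS h1 h2 h3 h4 h5 h6 h7
  refine h S E C0 ev φ cS wS h1 h2 h3 h4 h5 h6 fun j => ?_
  rw [← h7 j]
  refine Finset.sum_congr rfl fun t _ => ?_
  congr 2
  exact (prod_opt (d.g j t) (fun h => φ (MvPolynomial.eval₂ C0 ![cS (Sum.inl h), wS h] (d.N h)) /
        φ (MvPolynomial.eval₂ C0 ![cS (Sum.inl h), wS h] (d.D h)))).symm

end LDat

end LT
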