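import Pool.Agent.helper90.LT.TGerm

/-!
The decomposition of a function field of one variable over its field of `p`-th powers.
-/

open Polynomial
open scoped IntermediateField

namespace LT

open LU

universe u

section pb

variable {F : Type*} [Field F] (p : ℕ)

/-- `g` is a combination of powers of `u` with `p`-th powers as coefficients -/
def PB (u g : F) : Prop := ∃ a : ℕ → F, g = ∑ i ∈ Finset.range p, a i ^ p * u ^ i

variable {p} [hp : Fact p.Prime] [CharP F p] {u : F}

lemma PB.add {g h : F} (hg : PB p u g) (hh : PB p u h) : PB p u (g + h) := by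
  have : ExpChar F p := ExpChar.prime hp.out
  obtain ⟨a, rfl⟩ := hg
  obtain ⟨b, rfl⟩ := hh
  refine ⟨fun i => a i + b i, ?_⟩
  rw [← Finset.sum_add_distrib]
  refine Finset.sum_congr rfl fun i _ => ?_
  rw [add_pow_expChar]
  ring

omit [CharP F p] hp in
lemma PB.scal (c : F) {g : F} (hg : PB p u g) : PB p u (c ^ p * g) := by
  obtain ⟨a, rfl⟩ := hg
  refine ⟨fun i => c * a i, ?_⟩
  rw [Finset.mul_sum]
  refine Finset.sum_congr rfl fun i _ => ?_
  ring

omit [CharP F p] in
lemma PB.umul {g : F} (hg : PB p u g) : PB p u (u * g) := by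
  obtain ⟨a, rfl⟩ := hg
  obtain ⟨q, hq⟩ : ∃ q, p = q + 1 := ⟨p - 1, by have := hp.out.pos; omega⟩
  refine ⟨fun i => if i = 0 then a q * u else a (i - 1), ?_⟩
  rw [Finset.mul_sum, hq, Finset.sum_range_succ, Finset.sum_range_succ']
  simp only [Nat.add_eq_zero_iff, one_ne_zero, and_false, if_false, Nat.add_sub_cancel, if_true,
    pow_zero, mul_one]
  congr 1
  · refine Finset.sum_congr rfl fun i _ => ?_
    ring
  · ring

omit [CharP F p] in
lemma PB.zero : PB p u 0 := by
  refine ⟨fun _ => 0, ?_⟩
  have := hp.out.ne_zero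
  simp [zero_pow this]

omit [CharP F p] in
lemma PB.pow (c : F) : PB p u (c ^ p) := by
  refine ⟨fun i => if i = 0 then c else 0, ?_⟩
  have h1 := hp.out.ne_zero
  have h2 := hp.out.pos
  rw [Finset.sum_eq_single 0]
  · simp
  · intro b _ hb
    simp only [if_neg hb, zero_pow h1, zero_mul]
  · intro h
    exact absurd (Finset.mem_range.2 h2) h

omit [CharP F p] in
lemma PB.one : PB p u 1 := by simpa using PB.pow (p := p) (u := u) 1

omit [CharP F p] in
lemma PB.powu (i : ℕ) : PB p u (u ^ i) := by
  induction i with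
  | zero => simpa using PB.one (p := p) (u := u)
  | succ i ih =>
    rw [pow_succ']
    exact ih.umul

omit [CharP F p] in
lemma PB.upow_mul (i : ℕ) {g : F} (hg : PB p u g) : PB p u (u ^ i * g) := by
  induction i with
  | zero => simpa using hg
  | succ i ih =>
    rw [pow_succ', mul_assoc]
    exact ih.umul

lemma PB.sum {ι : Type*} (s : Finset ι) {f : ι → F} (h : ∀ i ∈ s, PB p u (f i)) :
    PB p u (∑ i ∈ s, f i) := by
  classical
  induction s using Finset.cons_induction with
  | empty => rw [Finset.sum_empty]; exact PB.zero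
  | cons i s hi ih =>
    rw [Finset.sum_cons]
    exact (h i (Finset.mem_cons_self _ _)).add (ih fun j hj => h j (Finset.mem_cons_of_mem hj))

lemma PB.mul {g h : F} (hg : PB p u g) (hh : PB p u h) : PB p u (g * h) := by
  obtain ⟨a, rfl⟩ := hg
  rw [Finset.sum_mul]
  refine PB.sum _ fun i _ => ?_
  rw [mul_assoc]
  exact (hh.upow_mul i).scal _

lemma PB.npow {g : F} (hg : PB p u g) (n : ℕ) : PB p u (g ^ n) := by
  induction n with
  | zero => simpa using PB.one (p := p) (u := u)
  | succ n ih => rw [pow_succ]; exact ih.mul hg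

lemma PB.inv {g : F} (hg : PB p u g) : PB p u g⁻¹ := by
  by_cases h0 : g = 0
  · rw [h0, inv_zero]; exact PB.zero
  obtain ⟨q, hq⟩ : ∃ q, p = q + 1 := ⟨p - 1, by have := hp.out.pos; omega⟩
  have : g⁻¹ = (g⁻¹) ^ p * g ^ q := by
    rw [hq, pow_succ, mul_right_comm, ← mul_pow, inv_mul_cancel₀ h0, one_pow, one_mul]
  rw [this]
  exact (hg.npow q).scal _

variable {k : Type*} [Field k] [Algebra k F] (hroot : ∀ c : k, ∃ d, d ^ p = c)

/-- the field generated by `u` over the `p`-th powers -/
def pbField (hroot : ∀ c : k, ∃ d, d ^ p = c) (u : F) : IntermediateField k F where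
  carrier := {g | PB p u g}
  mul_mem' := fun h1 h2 => PB.mul h1 h2
  one_mem' := PB.one
  add_mem' := fun h1 h2 => PB.add h1 h2
  zero_mem' := PB.zero
  algebraMap_mem' := fun c => by
    obtain ⟨d, rfl⟩ := hroot c
    rw [map_pow]
    exact PB.pow _
  inv_mem' := fun _ h => PB.inv h

omit [CharP F p] in
/-- the field of `p`-th powers -/
lemma mem_pbField {hroot : ∀ c : k, ∃ d, d ^ p = c} [CharP F p] {u g : F} :
    g ∈ pbField hroot u ↔ PB p u g := Iff.rfl

theorem pb_of_sep (hroot : ∀ c : k, ∃ d, d ^ p = c) (u : F) (hsep : Algebra.IsSeparable k⟮u⟯ F)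
    (g : F) : PB p u g := by
  have : ExpChar F p := ExpChar.prime hp.out
  set E := pbField hroot u with hE
  have huE : k⟮u⟯ ≤ E := by
    rw [IntermediateField.adjoin_simple_le_iff]
    have := PB.powu (p := p) (u := u) 1
    rw [pow_one] at this
    exact this
  let i : k⟮u⟯ →+* E :=
    { toFun := fun z => ⟨z, huE z.2⟩
      map_one' := rfl
      map_mul' := fun _ _ => rfl
      map_zero' := rfl
      map_add' := fun _ _ => rfl }
  let _ : Algebra k⟮u⟯ E := i.toAlgebra
  have : IsScalarTower k⟮u⟯ E F := IsScalarTower.of_algebraMap_eq fun r => rfl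
  have h2 : Algebra.IsSeparable E F := Algebra.isSeparable_tower_top_of_isSeparable k⟮u⟯ E F
  have : ExpChar E p := RingHom.expChar (algebraMap E F) (algebraMap E F).injective p
  have h3 : g ∈ perfectClosure E F := by
    rw [mem_perfectClosure_iff_pow_mem p]
    exact ⟨1, ⟨⟨g ^ p, PB.pow g⟩, by simp⟩⟩
  rw [perfectClosure.eq_bot_of_isSeparable, IntermediateField.mem_bot] at h3
  obtain ⟨y, rfl⟩ := h3
  exact y.2

end pb

end LT
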