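import Pool.Agent.helper90.LT.PBasis

/-!
Separability of a function field of one variable over the field generated by a function which is
not a `p`-th power.
-/

open Polynomial
open scoped IntermediateField

namespace LT

open LU

universe u

section

variable {k F : Type u} [Field k] [Field F] [Algebra k F] (p : ℕ) [hp : Fact p.Prime] [CharP F p]

/-- the field of `p`-th powers -/
def pwField (hroot : ∀ c : k, ∃ d, d ^ p = c) : IntermediateField k F where
  carrier := {g | ∃ x, x ^ p = g}
  mul_mem' := by
    rintro _ _ ⟨x, rfl⟩ ⟨y, rfl⟩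
    exact ⟨x * y, mul_pow _ _ _⟩
  one_mem' := ⟨1, one_pow _⟩
  add_mem' := by
    have : ExpChar F p := ExpChar.prime hp.out
    rintro _ _ ⟨x, rfl⟩ ⟨y, rfl⟩
    exact ⟨x + y, add_pow_expChar _ _ _⟩
  zero_mem' := ⟨0, zero_pow hp.out.ne_zero⟩
  algebraMap_mem' := fun c => by
    obtain ⟨d, rfl⟩ := hroot c
    exact ⟨algebraMap k F d, (map_pow _ _ _).symm⟩
  inv_mem' := by
    rintro _ ⟨x, rfl⟩
    exact ⟨x⁻¹, inv_pow _ _⟩

theorem adjoin_pw (hroot : ∀ c : k, ∃ d, d ^ p = c) (u : F) (hu : ∀ g, PB p u g) (g : F)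
    (hg : ∀ x, x ^ p ≠ g) : (pwField (F := F) p hroot)⟮g⟯ = ⊤ := by
  have : ExpChar F p := ExpChar.prime hp.out
  set P := pwField (F := F) p hroot with hP
  have hmem : ∀ x : F, x ^ p ∈ P := fun x => ⟨x, rfl⟩
  have hut : P⟮u⟯ = ⊤ := by
    rw [eq_top_iff]
    intro x _
    obtain ⟨a, rfl⟩ := hu x
    refine sum_mem fun i _ => mul_mem ?_ (pow_mem (IntermediateField.mem_adjoin_simple_self _ _) _)
    exact P⟮u⟯.algebraMap_mem ⟨a i ^ p, hmem _⟩
  have hpoly : ∀ x : F, aeval x (X ^ p - C (⟨x ^ p, hmem x⟩ : P)) = 0 := by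
    intro x
    rw [map_sub, map_pow, aeval_X, aeval_C]
    exact sub_self _
  have hmon : ∀ c : P, (X ^ p - C c : P[X]).Monic := fun c => monic_X_pow_sub_C _ hp.out.ne_zero
  have hint : ∀ x : F, IsIntegral P x := fun x => ⟨_, hmon _, hpoly x⟩
  have h1 : Module.finrank P F ≤ p := by
    rw [← IntermediateField.finrank_top', ← hut, IntermediateField.adjoin.finrank (hint u)]
    refine (natDegree_le_of_dvd (minpoly.dvd P u (hpoly u)) (hmon _).ne_zero).trans ?_
    rw [natDegree_X_pow_sub_C]
  have hfin : FiniteDimensional P F := by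
    have : FiniteDimensional P P⟮u⟯ := IntermediateField.adjoin.finiteDimensional (hint u)
    rw [hut] at this
    exact IntermediateField.topEquiv.toLinearEquiv.finiteDimensional
  have hirr : Irreducible (X ^ p - C (⟨g ^ p, hmem g⟩ : P)) := by
    apply X_pow_sub_C_irreducible_of_prime hp.out
    rintro ⟨b, c, rfl⟩ hb
    have h2 : (c ^ p) ^ p = g ^ p := congrArg Subtype.val hb
    exact hg c (frobenius_inj F p h2)
  have h2 : Module.finrank P P⟮g⟯ = p := by
    rw [IntermediateField.adjoin.finrank (hint g),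
      ← minpoly.eq_of_irreducible_of_monic hirr (hpoly g) (hmon _), natDegree_X_pow_sub_C]
  refine IntermediateField.eq_of_le_of_finrank_le le_top ?_
  rw [h2, IntermediateField.finrank_top']
  exact h1

theorem sep_of_not_pow [Algebra.EssFiniteType k F] (hroot : ∀ c : k, ∃ d, d ^ p = c) (u : F)
    (hu : ∀ g, PB p u g) (g : F) (hg : ∀ x, x ^ p ≠ g) : Algebra.IsSeparable k⟮g⟯ F := by
  have htop := adjoin_pw p hroot u hu g hg
  set P := pwField (F := F) p hroot with hP
  have hess : Algebra.EssFiniteType k⟮g⟯ F := Algebra.EssFiniteType.of_comp k k⟮g⟯ F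
  rw [← Algebra.FormallyUnramified.iff_isSeparable]
  set D := KaehlerDifferential.D k⟮g⟯ F with hD
  have hDp : ∀ x : F, D (x ^ p) = 0 := by
    intro x
    rw [D.leibniz_pow]
    rw [← Nat.cast_smul_eq_nsmul F, CharP.cast_eq_zero, zero_smul]
  let E : IntermediateField P F :=
    { carrier := {x | D x = 0}
      mul_mem' := fun {a b} ha hb => by
        change D (a * b) = 0
        rw [D.leibniz, show D a = 0 from ha, show D b = 0 from hb, smul_zero, smul_zero, add_zero]
      one_mem' := D.map_one_eq_zero
      add_mem' := fun {a b} ha hb => by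
        change D (a + b) = 0
        rw [map_add, show D a = 0 from ha, show D b = 0 from hb, add_zero]
      zero_mem' := map_zero D
      algebraMap_mem' := by
        rintro ⟨_, x, rfl⟩
        exact hDp x
      inv_mem' := fun x hx => by
        change D x⁻¹ = 0
        rw [D.leibniz_inv, show D x = 0 from hx, smul_zero] }
  have h1 : P⟮g⟯ ≤ E := by
    rw [IntermediateField.adjoin_simple_le_iff]
    exact D.map_algebraMap ⟨g, IntermediateField.mem_adjoin_simple_self _ _⟩
  rw [htop] at h1
  have h2 : ∀ x : F, D x = 0 := fun x => h1 (IntermediateField.mem_top)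
  refine ⟨?_⟩
  rw [← not_nontrivial_iff_subsingleton]
  intro hn
  have h3 := KaehlerDifferential.span_range_derivation k⟮g⟯ F
  have h4 : Set.range (KaehlerDifferential.D k⟮g⟯ F) ⊆ {0} := by
    rintro _ ⟨x, rfl⟩
    exact h2 x
  have h5 : (⊤ : Submodule F (Ω[F⁄k⟮g⟯])) ≤ ⊥ := by
    rw [← h3]
    refine (Submodule.span_mono h4).trans ?_
    simp
  exact bot_ne_top (α := Submodule F (Ω[F⁄k⟮g⟯])) (le_antisymm bot_le h5)

/-- A curve is separable over the field generated by the parameter of a germ. -/
theorem sep_of_germ {O : ValuationSubring F} {u w : F} {Φ : MvPolynomial (Fin 2) k}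
    (hG : IsGerm O u w Φ) : Algebra.IsSeparable k⟮u⟯ F := by
  set L := k⟮u⟯ with hL
  let Q : MvPolynomial (Fin 2) k →ₐ[k] L[X] :=
    MvPolynomial.aeval ![C ⟨u, IntermediateField.mem_adjoin_simple_self k _⟩, X]
  have hQ : ∀ q, aeval w (Q q) = MvPolynomial.aeval ![u, w] q := by
    intro q
    have : ((aeval w : L[X] →ₐ[L] F).restrictScalars k).comp Q = MvPolynomial.aeval ![u, w] := by
      apply MvPolynomial.algHom_ext
      intro i
      fin_cases i
      · simp [Q]
      · simp [Q]
    exact congrArg (fun f => f q) this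
  have hder : ∀ q, derivative (Q q) = Q (MvPolynomial.pderiv 1 q) := by
    intro q
    induction q using MvPolynomial.induction_on with
    | C c =>
      have : Q (MvPolynomial.C c) = C (algebraMap k L c) := by
        simp [Q]
      rw [this]
      simp
    | add p q hp hq => simp only [map_add, hp, hq]
    | mul_X p i hp =>
      fin_cases i
      · have e : MvPolynomial.pderiv (1 : Fin 2) (MvPolynomial.X (0 : Fin 2) :
            MvPolynomial (Fin 2) k) = 0 := MvPolynomial.pderiv_X_of_ne (by decide)
        simp only [Fin.zero_eta, map_mul, derivative_mul, hp, Derivation.leibniz, e,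
          smul_eq_mul]
        simp [Q, mul_comm]
      · simp only [Fin.mk_one, map_mul, derivative_mul, hp, Derivation.leibniz,
          MvPolynomial.pderiv_X_self, smul_eq_mul, map_add]
        simp [Q, mul_comm]
        ring
  have hP : aeval w (Q Φ) = 0 := by rw [hQ, hG.hΦ]
  have hP' : aeval w (derivative (Q Φ)) ≠ 0 := by rw [hder, hQ]; exact hG.hΦ0
  have hws : IsSeparable L w := by
    obtain ⟨q, hq⟩ := minpoly.dvd L w hP
    have hint : IsIntegral L w := by
      rw [← isAlgebraic_iff_isIntegral]
      exact ⟨Q Φ, fun h => hP' (by rw [h]; simp), hP⟩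
    rw [IsSeparable, separable_iff_derivative_ne_zero (minpoly.irreducible hint)]
    intro h
    apply hP'
    rw [hq, derivative_mul, h, zero_mul, zero_add, map_mul, minpoly.aeval, zero_mul]
  have h1 : Algebra.IsSeparable L L⟮w⟯ := by
    rw [IntermediateField.isSeparable_adjoin_iff_isSeparable]
    rintro y hy
    rw [Set.mem_singleton_iff] at hy
    rw [hy]; exact hws
  have h2 : L⟮w⟯ = ⊤ := by
    rw [eq_top_iff]
    intro x _
    have h3 : IntermediateField.adjoin k {u, w} ≤ (L⟮w⟯).restrictScalars k := by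
      rw [IntermediateField.adjoin_le_iff]
      rintro y (rfl | rfl)
      · exact L⟮w⟯.algebraMap_mem ⟨y, IntermediateField.mem_adjoin_simple_self k _⟩
      · exact IntermediateField.mem_adjoin_simple_self L y
    rw [hG.gen] at h3
    exact h3 IntermediateField.mem_top
  rw [h2] at h1
  exact AlgEquiv.Algebra.isSeparable (IntermediateField.topEquiv (F := L) (E := F))

end

end LT
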