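import Pool.Agent.helper90.LT.LDat
import Pool.Agent.helper90.LT.Adap

open IsLocalRing

namespace LT

open LU

universe u

/-- combination with coefficients moved by a ring homomorphism -/
def cmb {k E : Type*} [Semiring k] [Field E] (κ : k →+* E) {M : ℕ} (x : Fin M → E) (c : k)
    (a : Fin M → k) : E := κ c + ∑ m, κ (a m) * x m

/-- A system of additive relations, reduced with respect to the valuation. -/
structure Sys {k K : Type u} [Field k] [Field K] [Algebra k K] (V : ValuationSubring K)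
    (p : ℕ) (ι R : Type) (M : ℕ) where
  u : ι → K
  w : ι → K
  Φ : ι → MvPolynomial (Fin 2) k
  N : ι → MvPolynomial (Fin 2) k
  D : ι → MvPolynomial (Fin 2) k
  m : ι → ℤ
  bc : ι → k
  ba : ι → Fin M → k
  x : Fin M → K
  γ1 : R → k
  γ : R → Fin M → k
  α : R → Fin M → k
  π : R → Fin M
  hu0 : ∀ i, u i ≠ 0
  huV : ∀ i, u i ∈ V
  hwV : ∀ i, w i ∈ V
  hΦ : ∀ i, MvPolynomial.aeval ![u i, w i] (Φ i) = 0
  hΦ0 : ∀ i, MvPolynomial.aeval ![u i, w i] (MvPolynomial.pderiv 1 (Φ i)) ≠ 0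
  hΦV : ∀ i, (MvPolynomial.aeval ![u i, w i] (MvPolynomial.pderiv 1 (Φ i)))⁻¹ ∈ V
  hN0 : ∀ i, MvPolynomial.aeval ![u i, w i] (N i) ≠ 0
  hNV : ∀ i, (MvPolynomial.aeval ![u i, w i] (N i))⁻¹ ∈ V
  hD0 : ∀ i, MvPolynomial.aeval ![u i, w i] (D i) ≠ 0
  hDV : ∀ i, (MvPolynomial.aeval ![u i, w i] (D i))⁻¹ ∈ V
  hm : ∀ i, (m i : k) ≠ 0
  hdir : ∀ i, (u i)⁻¹ ∉ V ∨ (N i = 1 ∧ D i = 1)
  hlin : ∀ i, comb x (bc i) (ba i) = u i ^ m i * (MvPolynomial.aeval ![u i, w i] (N i) /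
      MvPolynomial.aeval ![u i, w i] (D i))
  adapt : Adapted k V x
  hrel : ∀ l, comb (fun m => x m ^ p) (γ1 l) (γ l) = comb x 0 (α l)
  hπ1 : ∀ l, α l (π l) ≠ 0
  hπ2 : ∀ l l', l' ≠ l → α l' (π l) = 0
  hπ3 : ∀ l m, α l m ≠ 0 → V.valuation (x m) ≤ V.valuation (x (π l))

namespace Sys

variable {k K : Type u} [Field k] [Field K] [Algebra k K] {V : ValuationSubring K}
    {p : ℕ} {ι R : Type} {M : ℕ} (y : Sys (k := k) V p ι R M)

noncomputable def sgn (m : Fin M) : ℤ := by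
  classical exact if y.x m ∈ V then 1 else -1

lemma sgn_sq (m : Fin M) : y.sgn m * y.sgn m = 1 := by
  unfold sgn
  split_ifs <;> rfl

/-- frame elements -/
noncomputable def xx (m : Fin M) : K := y.x m ^ y.sgn m

lemma xx_ne (m : Fin M) : y.xx m ≠ 0 := zpow_ne_zero _ (y.adapt.ne m)

lemma xx_mem (m : Fin M) : y.xx m ∈ V := by
  unfold xx sgn
  split_ifs with h
  · simpa using h
  · rw [zpow_neg, zpow_one]
    exact (V.mem_or_inv_mem _).resolve_left h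

lemma xx_pow (m : Fin M) : y.xx m ^ y.sgn m = y.x m := by
  rw [xx, ← zpow_mul, sgn_sq, zpow_one]

variable [Fintype ι] [DecidableEq ι]

/-- exponent of `x m` -/
noncomputable def ex (m : Fin M) : ι ⊕ Fin M → ℤ := Pi.single (Sum.inr m) (y.sgn m)

/-- index type of the terms of a relation -/
abbrev Tm (M : ℕ) := (Unit ⊕ Unit) ⊕ (Fin M ⊕ Fin M)

noncomputable def ca : ι ⊕ R → Tm M → k
  | Sum.inl _, Sum.inl (Sum.inl _) => 1
  | Sum.inl i, Sum.inl (Sum.inr _) => - y.bc i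
  | Sum.inl _, Sum.inr (Sum.inl _) => 0
  | Sum.inl i, Sum.inr (Sum.inr m) => - y.ba i m
  | Sum.inr _, Sum.inl (Sum.inl _) => 0
  | Sum.inr l, Sum.inl (Sum.inr _) => y.γ1 l
  | Sum.inr l, Sum.inr (Sum.inl m) => y.γ l m
  | Sum.inr l, Sum.inr (Sum.inr m) => - y.α l m

noncomputable def ce (p : ℕ) {V : ValuationSubring K} (y : Sys (k := k) V p ι R M) :
    ι ⊕ R → Tm M → (ι ⊕ Fin M → ℤ)
  | Sum.inl _, Sum.inl (Sum.inl _) => 0
  | Sum.inl i, Sum.inl (Sum.inr _) => Pi.single (Sum.inl i) (- y.m i)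
  | Sum.inl _, Sum.inr (Sum.inl _) => 0
  | Sum.inl i, Sum.inr (Sum.inr m) => Pi.single (Sum.inl i) (- y.m i) + y.ex m
  | Sum.inr _, Sum.inl (Sum.inl _) => 0
  | Sum.inr l, Sum.inl (Sum.inr _) => - y.ex (y.π l)
  | Sum.inr l, Sum.inr (Sum.inl m) => (p : ℤ) • y.ex m - y.ex (y.π l)
  | Sum.inr l, Sum.inr (Sum.inr m) => y.ex m - y.ex (y.π l)

def cg : ι ⊕ R → Tm M → Option ι
  | Sum.inl i, Sum.inl (Sum.inl _) => some i
  | _, _ => none

noncomputable def cs : ι ⊕ R → ι ⊕ Fin M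
  | Sum.inl i => Sum.inl i
  | Sum.inr l => Sum.inr (y.π l)

def crk : ι ⊕ R → ℕ
  | Sum.inl _ => 1
  | Sum.inr _ => 0

section mon

variable {E : Type*} [Field E] {uE : ι → E} {xE : Fin M → E} (hu : ∀ i, uE i ≠ 0)
  (hx : ∀ m, xE m ≠ 0)

include hu hx in
lemma elim_ne (z : ι ⊕ Fin M) : Sum.elim uE xE z ≠ 0 := by
  rcases z with i | m
  · exact hu i
  · exact hx m

lemma mon_ex (m : Fin M) : LU.mon (Sum.elim uE xE) (y.ex m) = xE m ^ y.sgn m := by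
  rw [ex, mon_single]
  rfl

lemma mon_u (i : ι) (m : ℤ) : LU.mon (Sum.elim uE xE) (Pi.single (Sum.inl i) m) = uE i ^ m := by
  rw [mon_single]
  rfl

include hu hx in
lemma mon_ux (i : ι) (m : ℤ) (l : Fin M) :
    LU.mon (Sum.elim uE xE) (Pi.single (Sum.inl i) m + y.ex l) =
      uE i ^ m * xE l ^ y.sgn l := by
  rw [mon_add (elim_ne hu hx), mon_u, mon_ex]

include hu hx in
lemma mon_neg_ex (m : Fin M) : LU.mon (Sum.elim uE xE) (- y.ex m) = (xE m ^ y.sgn m)⁻¹ := by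
  have h := mon_sub (elim_ne hu hx) 0 (y.ex m)
  rw [zero_sub, mon_ex] at h
  rw [h]
  simp [LU.mon]

include hu hx in
lemma mon_p_ex (m l : Fin M) : LU.mon (Sum.elim uE xE) ((p : ℤ) • y.ex m - y.ex l) =
    (xE m ^ y.sgn m) ^ p * (xE l ^ y.sgn l)⁻¹ := by
  rw [mon_sub (elim_ne hu hx), mon_ex, div_eq_mul_inv]
  congr 1
  have : (p : ℤ) • y.ex m = (Pi.single (Sum.inr m) (p * y.sgn m) : ι ⊕ Fin M → ℤ) := by
    rw [ex]
    ext z
    simp [Pi.single_apply]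
  rw [this, mon_single]
  change xE m ^ ((p : ℤ) * y.sgn m) = _
  rw [mul_comm, zpow_mul, zpow_natCast]

include hu hx in
lemma mon_x_ex (m l : Fin M) : LU.mon (Sum.elim uE xE) (y.ex m - y.ex l) =
    xE m ^ y.sgn m * (xE l ^ y.sgn l)⁻¹ := by
  rw [mon_sub (elim_ne hu hx), mon_ex, mon_ex, div_eq_mul_inv]

end mon

/-- the sum over the terms -/
lemma sum_Tm {E : Type*} [AddCommMonoid E] (f : Tm M → E) : ∑ t, f t =
    f (Sum.inl (Sum.inl ())) + f (Sum.inl (Sum.inr ())) +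
      (∑ m, f (Sum.inr (Sum.inl m)) + ∑ m, f (Sum.inr (Sum.inr m))) := by
  rw [Fintype.sum_sum_type, Fintype.sum_sum_type, Fintype.sum_sum_type]
  simp

/-- value of a linear row -/
lemma row_inl {E : Type*} [Field E] (κ : k →+* E) {uE : ι → E} {xE : Fin M → E}
    (hu : ∀ i, uE i ≠ 0) (hx : ∀ m, xE m ≠ 0) (G : ι → E) (i : ι) :
    ∑ t, κ (y.ca (Sum.inl i) t) * (LU.mon (Sum.elim uE xE) (ce p y (Sum.inl i) t) *
      (cg (R := R) (Sum.inl i) t).elim 1 G) =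
    G i - (uE i ^ y.m i)⁻¹ * cmb κ (fun m => xE m ^ y.sgn m) (y.bc i) (y.ba i) := by
  rw [sum_Tm]
  simp only [ca, ce, cg, Option.elim, map_one, one_mul, map_zero, zero_mul,
    Finset.sum_const_zero, zero_add, map_neg, mul_one]
  rw [mon_u]
  simp only [y.mon_ux hu hx]
  have : LU.mon (Sum.elim uE xE) 0 = 1 := by simp [LU.mon]
  rw [this, cmb, zpow_neg, mul_add, Finset.mul_sum, one_mul, sub_eq_add_neg, neg_add,
    ← Finset.sum_neg_distrib, add_assoc]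
  congr 2
  · ring
  · refine Finset.sum_congr rfl fun m _ => ?_
    ring

/-- value of an additive row -/
lemma row_inr {E : Type*} [Field E] (κ : k →+* E) {uE : ι → E} {xE : Fin M → E}
    (hu : ∀ i, uE i ≠ 0) (hx : ∀ m, xE m ≠ 0) (G : ι → E) (l : R) :
    ∑ t, κ (y.ca (Sum.inr l) t) * (LU.mon (Sum.elim uE xE) (ce p y (Sum.inr l) t) *
      (cg (Sum.inr l) t).elim 1 G) =
    (xE (y.π l) ^ y.sgn (y.π l))⁻¹ * (cmb κ (fun m => (xE m ^ y.sgn m) ^ p) (y.γ1 l) (y.γ l) -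
      cmb κ (fun m => xE m ^ y.sgn m) 0 (y.α l)) := by
  rw [sum_Tm]
  simp only [ca, ce, cg, Option.elim, map_zero, zero_mul, zero_add, map_neg, mul_one]
  rw [y.mon_neg_ex hu hx]
  simp only [y.mon_p_ex hu hx, y.mon_x_ex hu hx]
  rw [cmb, cmb, map_zero, zero_add, mul_sub, mul_add, Finset.mul_sum, Finset.mul_sum,
    sub_eq_add_neg, ← Finset.sum_neg_distrib, add_assoc]
  congr 1
  · ring
  congr 1
  · refine Finset.sum_congr rfl fun m _ => ?_
    ring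
  · refine Finset.sum_congr rfl fun m _ => ?_
    ring

end Sys

end LT
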