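import Pool.Agent.helper90.LT.Sys

open IsLocalRing

namespace LT

open LU

universe u

lemma val_one_of {K : Type*} [Field K] {V : ValuationSubring K} {x : K} (hx : x ≠ 0)
    (h1 : x ∈ V) (h2 : x⁻¹ ∈ V) : V.valuation x = 1 := by
  have hx' : V.valuation x ≠ 0 := by simpa using hx
  apply le_antisymm ((V.valuation_le_one_iff _).2 h1)
  have h3 := (V.valuation_le_one_iff _).2 h2
  rw [map_inv₀] at h3
  exact (inv_le_one₀ (zero_lt_iff.2 hx')).1 h3

lemma mul_inv_mem {K : Type*} [Field K] {V : ValuationSubring K} {x y : K} (hy : y ≠ 0)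
    (h : V.valuation x ≤ V.valuation y) : x * y⁻¹ ∈ V := by
  rw [← V.valuation_le_one_iff, map_mul, map_inv₀]
  have : V.valuation y ≠ 0 := by simpa using hy
  rw [← div_eq_mul_inv]
  exact div_le_one_of_le₀ h zero_le

namespace Sys

variable {k K : Type u} [Field k] [Field K] [Algebra k K] {V : ValuationSubring K}
    {p : ℕ} {ι R : Type} {M : ℕ} (y : Sys (k := k) V p ι R M)

lemma cmb_eq (x : Fin M → K) (c : k) (a : Fin M → k) :
    cmb (algebraMap k K) x c a = comb x c a := rfl

lemma xpow : (fun m => y.xx m ^ y.sgn m) = y.x := funext y.xx_pow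

/-- the unit at the germ `i` -/
noncomputable def G (i : ι) : K := MvPolynomial.aeval ![y.u i, y.w i] (y.N i) /
      MvPolynomial.aeval ![y.u i, y.w i] (y.D i)

variable (hV : ∀ c : k, algebraMap k K c ∈ V)

include hV in
lemma ev_mem (i : ι) (q : MvPolynomial (Fin 2) k) :
    MvPolynomial.aeval ![y.u i, y.w i] q ∈ V := by
  apply aeval_mem hV
  intro x
  fin_cases x
  · exact y.huV i
  · exact y.hwV i

lemma G_ne (i : ι) : y.G i ≠ 0 := div_ne_zero (y.hN0 i) (y.hD0 i)

include hV in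
lemma G_mem (i : ι) : y.G i ∈ V ∧ (y.G i)⁻¹ ∈ V := by
  unfold G
  constructor
  · rw [div_eq_mul_inv]
    exact mul_mem (y.ev_mem hV _ _) (y.hDV i)
  · rw [inv_div, div_eq_mul_inv]
    exact mul_mem (y.ev_mem hV _ _) (y.hNV i)

include hV in
lemma val_lin (i : ι) : V.valuation (y.u i ^ y.m i) = V.valuation (comb y.x (y.bc i) (y.ba i)) := by
  rw [y.hlin i, map_mul]
  change _ = _ * V.valuation (y.G i)
  rw [val_one_of (y.G_ne i) (y.G_mem hV i).1 (y.G_mem hV i).2, mul_one]

lemma um_ne (i : ι) : y.u i ^ y.m i ≠ 0 := zpow_ne_zero _ (y.hu0 i)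

section

variable [Fact p.Prime] [CharP k p] (hroot : ∀ c : k, ∃ d, d ^ p = c)

include hroot in
lemma exists_rho (l : R) : ∃ (δ1 : k) (δ : Fin M → k), (∀ m, δ m ^ p = y.γ l m) ∧
    δ1 ^ p = y.γ1 l ∧ comb y.x δ1 δ ^ p = comb y.x 0 (y.α l) := by
  choose rt hrt using hroot
  refine ⟨rt (y.γ1 l), fun m => rt (y.γ l m), fun m => hrt _, hrt _, ?_⟩
  have : CharP K p := charP_of_injective_algebraMap (algebraMap k K).injective p
  have : ExpChar K p := ExpChar.prime Fact.out
  rw [← y.hrel l]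
  unfold comb
  rw [add_pow_expChar, ← map_pow, hrt, sum_pow_char]
  congr 1
  refine Finset.sum_congr rfl fun m _ => ?_
  rw [mul_pow, ← map_pow, hrt]

include hV in
lemma val_alpha (l : R) : V.valuation (comb y.x 0 (y.α l)) ≤ V.valuation (y.x (y.π l)) := by
  unfold comb
  rw [map_zero, zero_add]
  apply Valuation.map_sum_le
  intro m _
  by_cases hm : y.α l m = 0
  · rw [hm, map_zero, zero_mul, map_zero]
    exact zero_le
  · rw [map_mul, val_k hV hm, one_mul]
    exact y.hπ3 l m hm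

include hV hroot in
lemma val_gamma (l : R) : (∀ m, y.γ l m ≠ 0 → V.valuation (y.x m ^ p) ≤
    V.valuation (y.x (y.π l))) ∧ (y.γ1 l ≠ 0 → 1 ≤ V.valuation (y.x (y.π l))) := by
  have hp : p ≠ 0 := (Fact.out : p.Prime).ne_zero
  obtain ⟨δ1, δ, h1, h2, h3⟩ := y.exists_rho hroot l
  have h4 := y.val_alpha hV l
  rw [← h3, map_pow] at h4
  constructor
  · intro m hm
    have h5 : δ m ≠ 0 := by
      rintro h0
      apply hm
      rw [← h1, h0, zero_pow hp]
    rw [map_pow]
    exact (pow_le_pow_left₀ zero_le (y.adapt.le δ1 δ m h5) p).trans h4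
  · intro hm
    have h5 : δ1 ≠ 0 := by
      rintro h0
      apply hm
      rw [← h2, h0, zero_pow hp]
    refine le_trans ?_ h4
    have := pow_le_pow_left₀ zero_le (y.adapt.one δ1 δ h5) p
    rwa [one_pow] at this

end

variable [Fintype ι] [DecidableEq ι]

lemma ex_inl (m : Fin M) (i : ι) : y.ex m (Sum.inl i : ι ⊕ Fin M) = 0 := by
  unfold ex
  exact Pi.single_eq_of_ne (by simp) _

/-- the weighted sums -/
lemma wsum_inl (i : ι) (s : ι ⊕ Fin M) :
    ∑ t, (ce p y (Sum.inl i) t s : K) * (algebraMap k K (y.ca (Sum.inl i : ι ⊕ R) t) *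
      (LU.mon (Sum.elim y.u y.xx) (ce p y (Sum.inl i) t) *
      (cg (R := R) (Sum.inl i) t).elim 1 y.G)) =
    (if s = Sum.inl i then (y.m i : K) else 0) * y.G i +
      ∑ m, (y.ex m s : K) * (algebraMap k K (- y.ba i m) *
        ((y.u i ^ y.m i)⁻¹ * y.x m)) := by
  rw [sum_Tm]
  simp only [ca, ce, cg, Option.elim, map_one, one_mul, map_zero, zero_mul,
    Finset.sum_const_zero, zero_add, mul_one, Pi.zero_apply, Int.cast_zero, Pi.add_apply]
  rw [mon_u]
  simp only [y.mon_ux y.hu0 y.xx_ne, xx_pow]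
  have h1 : ∀ s : ι ⊕ Fin M, ((Pi.single (Sum.inl i) (- y.m i) : ι ⊕ Fin M → ℤ) s : K) =
      if s = Sum.inl i then - (y.m i : K) else 0 := by
    intro s
    rw [Pi.single_apply]
    split_ifs
    · push_cast; ring
    · simp
  have h2 : y.G i = (y.u i ^ y.m i)⁻¹ * comb y.x (y.bc i) (y.ba i) := by
    rw [y.hlin i, ← mul_assoc, inv_mul_cancel₀ (y.um_ne i), one_mul]
    rfl
  have h3 : ∀ m, ((((Pi.single (Sum.inl i) (- y.m i) : ι ⊕ Fin M → ℤ) s + y.ex m s : ℤ)) : K) =
      ((Pi.single (Sum.inl i) (- y.m i) : ι ⊕ Fin M → ℤ) s : K) + (y.ex m s : K) := by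
    intro m
    push_cast
    ring
  simp only [h3, h1, add_mul, Finset.sum_add_distrib]
  rw [← add_assoc]
  congr 1
  · rw [← Finset.mul_sum, ← mul_add, h2, zpow_neg]
    by_cases hs : s = Sum.inl i
    · rw [if_pos hs, if_pos hs]
      unfold comb
      rw [mul_add, mul_add, Finset.mul_sum, Finset.mul_sum, map_neg, mul_add]
      congr 1
      · ring
      · rw [Finset.mul_sum]
        refine Finset.sum_congr rfl fun m _ => ?_
        rw [map_neg]
        ring
    · rw [if_neg hs, if_neg hs, zero_mul, zero_mul]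
  · refine Finset.sum_congr rfl fun m _ => ?_
    rw [zpow_neg]

lemma wsum_inr [CharP K p] (l : R) (s : ι ⊕ Fin M) :
    ∑ t, (ce p y (Sum.inr l) t s : K) * (algebraMap k K (y.ca (Sum.inr l) t) *
      (LU.mon (Sum.elim y.u y.xx) (ce p y (Sum.inr l) t) *
      (cg (Sum.inr l) t).elim 1 y.G)) =
      - ∑ m, (y.ex m s : K) * (algebraMap k K (y.α l m) *
        (y.x m * (y.x (y.π l))⁻¹)) := by
  rw [sum_Tm]
  simp only [ca, ce, cg, Option.elim, map_zero, zero_mul, mul_zero, zero_add, mul_one,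
    Pi.neg_apply, Pi.sub_apply, Pi.smul_apply]
  rw [y.mon_neg_ex y.hu0 y.xx_ne]
  simp only [y.mon_p_ex y.hu0 y.xx_ne, y.mon_x_ex y.hu0 y.xx_ne, xx_pow]
  have hrel := y.hrel l
  unfold comb at hrel
  rw [map_zero, zero_add] at hrel
  have h1 : ∀ m, (((p : ℤ) • y.ex m s - y.ex (y.π l) s : ℤ) : K) = - (y.ex (y.π l) s : K) := by
    intro m
    push_cast
    simp [CharP.cast_eq_zero]
  have h2 : ∀ m, ((y.ex m s - y.ex (y.π l) s : ℤ) : K) =
      (y.ex m s : K) - (y.ex (y.π l) s : K) := by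
    intro m
    push_cast
    ring
  simp only [h1, h2]
  have e1 : ∑ m, (-(y.ex (y.π l) s : K)) * (algebraMap k K (y.γ l m) *
      (y.x m ^ p * (y.x (y.π l))⁻¹)) = -(y.ex (y.π l) s : K) * (y.x (y.π l))⁻¹ *
      ∑ m, algebraMap k K (y.γ l m) * y.x m ^ p := by
    rw [Finset.mul_sum]
    refine Finset.sum_congr rfl fun m _ => ?_
    ring
  have e2 : ∑ m, ((y.ex m s : K) - (y.ex (y.π l) s : K)) * (algebraMap k K (- y.α l m) *
      (y.x m * (y.x (y.π l))⁻¹)) = (y.ex (y.π l) s : K) * (y.x (y.π l))⁻¹ *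
      (∑ m, algebraMap k K (y.α l m) * y.x m) - ∑ m, (y.ex m s : K) *
        (algebraMap k K (y.α l m) * (y.x m * (y.x (y.π l))⁻¹)) := by
    rw [Finset.mul_sum, ← Finset.sum_sub_distrib]
    refine Finset.sum_congr rfl fun m _ => ?_
    rw [map_neg]
    ring
  rw [e1, e2, ← hrel]
  push_cast
  ring

/-- The logarithmically smooth system attached to a reduced additive system. -/
noncomputable def toL [Fintype R] [Fact p.Prime] [CharP k p] (hroot : ∀ c : k, ∃ d, d ^ p = c) :
    LDat (k := k) V ι (Fin M) (ι ⊕ R) (Tm M) where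
  u := y.u
  w := y.w
  x := y.xx
  Φ := y.Φ
  N := y.N
  D := y.D
  a := y.ca
  e := ce p y
  g := cg
  s := y.cs
  rk := crk
  hu0 := y.hu0
  huV := y.huV
  hwV := y.hwV
  hx0 := y.xx_ne
  hxV := y.xx_mem
  hΦ := y.hΦ
  hΦ0 := y.hΦ0
  hΦV := y.hΦV
  hD0 := y.hD0
  hDV := y.hDV
  hmon := by
    rintro (i | l) ((⟨⟩ | ⟨⟩) | (m | m)) ha
    · simp [ce, LU.mon, one_mem]
    · simp only [ca, neg_ne_zero] at ha
      simp only [ce]
      rw [mon_u, zpow_neg]
      have h1 := y.adapt.one (y.bc i) (y.ba i) ha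
      rw [← y.val_lin hV i] at h1
      have := mul_inv_mem (V := V) (x := 1) (y.um_ne i) (by rwa [map_one])
      rwa [one_mul] at this
    · exact absurd rfl ha
    · simp only [ca, ne_eq, neg_eq_zero] at ha
      simp only [ce]
      rw [y.mon_ux y.hu0 y.xx_ne, xx_pow, zpow_neg]
      have h1 := y.adapt.le (y.bc i) (y.ba i) m ha
      rw [← y.val_lin hV i] at h1
      have := mul_inv_mem (y.um_ne i) h1
      rwa [mul_comm] at this
    · exact absurd rfl ha
    · simp only [ca] at ha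
      simp only [ce]
      rw [y.mon_neg_ex y.hu0 y.xx_ne, xx_pow]
      have := mul_inv_mem (V := V) (x := 1) (y.adapt.ne (y.π l))
        (by rw [map_one]; exact (y.val_gamma hV hroot l).2 ha)
      rwa [one_mul] at this
    · simp only [ca] at ha
      simp only [ce]
      rw [y.mon_p_ex y.hu0 y.xx_ne, xx_pow, xx_pow]
      exact mul_inv_mem (y.adapt.ne (y.π l)) ((y.val_gamma hV hroot l).1 m ha)
    · simp only [ca, ne_eq, neg_eq_zero] at ha
      simp only [ce]
      rw [y.mon_x_ex y.hu0 y.xx_ne, xx_pow, xx_pow]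
      exact mul_inv_mem (y.adapt.ne (y.π l)) (y.hπ3 l m ha)
  hrow := by
    rintro (i | l)
    · have := y.row_inl (R := R) (p := p) (algebraMap k K) y.hu0 y.xx_ne y.G i
      refine this.trans ?_
      rw [y.xpow, cmb_eq, y.hlin i, ← mul_assoc, inv_mul_cancel₀ (y.um_ne i), one_mul]
      exact sub_self _
    · have := y.row_inr (p := p) (algebraMap k K) y.hu0 y.xx_ne y.G l
      refine this.trans ?_
      rw [y.xpow, cmb_eq]
      simp only [xx_pow]
      rw [cmb_eq, y.hrel l, sub_self, mul_zero]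
  hd1 := by
    have : CharP K p := charP_of_injective_algebraMap (algebraMap k K).injective p
    rintro (i | l)
    · have h := y.wsum_inl (R := R) (p := p) i (Sum.inl i)
      simp only [ex_inl, Int.cast_zero, zero_mul, Finset.sum_const_zero, add_zero, if_true] at h
      have hm : (y.m i : K) = algebraMap k K (y.m i) := by simp
      change (∑ t, (ce p y (Sum.inl i) t (Sum.inl i) : K) * (algebraMap k K (y.ca (Sum.inl i) t) *
        (LU.mon (Sum.elim y.u y.xx) (ce p y (Sum.inl i) t) *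
        (cg (R := R) (Sum.inl i) t).elim 1 y.G)) ≠ 0) ∧ (∑ t, (ce p y (Sum.inl i) t (Sum.inl i) : K) *
        (algebraMap k K (y.ca (Sum.inl i) t) *
        (LU.mon (Sum.elim y.u y.xx) (ce p y (Sum.inl i) t) *
        (cg (R := R) (Sum.inl i) t).elim 1 y.G)))⁻¹ ∈ V
      rw [h, hm]
      refine ⟨mul_ne_zero ((map_ne_zero (algebraMap k K)).2 (y.hm i)) (y.G_ne i), ?_⟩
      rw [mul_inv, ← map_inv₀]
      exact mul_mem (hV _) (y.G_mem hV i).2
    · have h := y.wsum_inr l (Sum.inr (y.π l) : ι ⊕ Fin M)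
      have h2 : ∑ m, (y.ex m (Sum.inr (y.π l) : ι ⊕ Fin M) : K) * (algebraMap k K (y.α l m) *
        (y.x m * (y.x (y.π l))⁻¹)) = (y.sgn (y.π l) : K) * algebraMap k K (y.α l (y.π l)) := by
        rw [Finset.sum_eq_single (y.π l)]
        · rw [mul_inv_cancel₀ (y.adapt.ne _), mul_one, ex, Pi.single_eq_same]
        · intro b _ hb
          rw [ex, Pi.single_eq_of_ne (by simpa using Ne.symm hb)]
          simp
        · simp
      rw [h2] at h
      have hs : (y.sgn (y.π l) : K) = 1 ∨ (y.sgn (y.π l) : K) = -1 := by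
        unfold sgn
        split_ifs
        · left; simp
        · right; simp
      change (∑ t, (ce p y (Sum.inr l) t (Sum.inr (y.π l)) : K) *
        (algebraMap k K (y.ca (Sum.inr l) t) *
        (LU.mon (Sum.elim y.u y.xx) (ce p y (Sum.inr l) t) *
        (cg (Sum.inr l) t).elim 1 y.G)) ≠ 0) ∧ (∑ t, (ce p y (Sum.inr l) t (Sum.inr (y.π l)) : K) *
        (algebraMap k K (y.ca (Sum.inr l) t) *
        (LU.mon (Sum.elim y.u y.xx) (ce p y (Sum.inr l) t) *
        (cg (Sum.inr l) t).elim 1 y.G)))⁻¹ ∈ V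
      rw [h]
      have ha : algebraMap k K (y.α l (y.π l)) ≠ 0 := by simpa using y.hπ1 l
      rcases hs with hs | hs
      · rw [hs, one_mul]
        refine ⟨neg_ne_zero.2 ha, ?_⟩
        rw [inv_neg, ← map_inv₀]
        exact neg_mem (hV _)
      · rw [hs, neg_one_mul, neg_neg]
        refine ⟨ha, ?_⟩
        rw [← map_inv₀]
        exact hV _
  hd0 := by
    have : CharP K p := charP_of_injective_algebraMap (algebraMap k K).injective p
    rintro (i | l) (i' | l') hne hrk
    · have h := y.wsum_inl (R := R) (p := p) i' (Sum.inl i)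
      simp only [ex_inl, Int.cast_zero, zero_mul, Finset.sum_const_zero, add_zero] at h
      refine h.trans ?_
      rw [if_neg (by simpa using hne), zero_mul]
    · have h := y.wsum_inr l' (Sum.inl i : ι ⊕ Fin M)
      simp only [ex_inl, Int.cast_zero, zero_mul, Finset.sum_const_zero, neg_zero] at h
      exact h
    · simp [crk] at hrk
    · have h := y.wsum_inr l' (Sum.inr (y.π l) : ι ⊕ Fin M)
      refine h.trans ?_
      rw [neg_eq_zero]
      apply Finset.sum_eq_zero
      intro m _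
      by_cases hm : m = y.π l
      · subst hm
        rw [y.hπ2 l l' (by rintro rfl; exact hne rfl)]
        simp
      · rw [ex, Pi.single_eq_of_ne (by simpa using Ne.symm hm)]
        simp
  hdir := by
    rintro (i | l) i' h
    · simp only [cs, Sum.inl.injEq] at h
      subst h
      exact y.hdir i
    · simp [cs] at h

lemma xx_sub : (Set.range y.x : Set K) ⊆ IntermediateField.adjoin k
    (Set.range y.u ∪ Set.range y.w ∪ Set.range y.xx) := by
  rintro z ⟨m, rfl⟩
  have h1 : y.xx m ∈ IntermediateField.adjoin k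
    (Set.range y.u ∪ Set.range y.w ∪ Set.range y.xx) :=
      IntermediateField.subset_adjoin _ _ (Or.inr ⟨m, rfl⟩)
  rw [← y.xx_pow m]
  exact zpow_mem h1 _

end Sys

end LT
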